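import Pool.Agent.Lib.MP_1a91b9_nuI.Loc3
import Pool.Agent.Lib.MP_1a91b9_nt.Residue

/-!
# Isogenous curves have the same L-function
-/

set_option autoImplicit false

namespace Pool.Agent.Lib.MP_1a91b9_nuI

open WeierstrassCurve IsDedekindDomain NumberField

section
variable {K : Type*} [Field K]

/-- the quotient of the quotient of `E2 a b` is isomorphic to `E2 a b` -/
theorem E2_dual (h2 : (2 : K) ≠ 0) (a b : K) :
    E2 (-2 * (-2 * a)) ((-2 * a) ^ 2 - 4 * (a ^ 2 - 4 * b)) =
      (⟨(Units.mk0 2 h2)⁻¹, 0, 0, 0⟩ : VariableChange K) • E2 a b := by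
  ext
  · simp [variableChange_a₁, E2]
  · simp only [variableChange_a₂, E2, inv_inv, Units.val_mk0]
    ring
  · simp [variableChange_a₃, E2]
  · simp only [variableChange_a₄, E2, inv_inv, Units.val_mk0]
    ring
  · simp [variableChange_a₆, E2]

/-- the coefficients of the quotient of `E3 a b c`, in the form `E3` -/
theorem E3_shift (h3 : (3 : K) ≠ 0) (a b c : K) :
    (⟨1, -4 * a / 3, 0, 0⟩ : VariableChange K) • E3 a (-9 * b) (-27 * c - 8 * a * b) =
      E3 (-3 * a) (8 / 3 * a ^ 2 - 9 * b) (-(16 / 27) * a ^ 3 + 4 * a * b - 27 * c) := by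
  have h27 : (27 : K) ≠ 0 := by
    have h : (27 : K) = 3 ^ 3 := by norm_num
    rw [h]
    exact pow_ne_zero 3 h3
  ext
  · simp [variableChange_a₁, E3]
  · simp only [variableChange_a₂, E3, inv_one, Units.val_one]
    field_simp
    ring
  · simp [variableChange_a₃, E3]
  · simp only [variableChange_a₄, E3, inv_one, Units.val_one]
    field_simp
    ring
  · simp only [variableChange_a₆, E3, inv_one, Units.val_one]
    field_simp
    ring

theorem E3_shift_rel (h3 : (3 : K) ≠ 0) (a b c : K) (habc : 4 * a * c = b ^ 2) :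
    4 * (-3 * a) * (-(16 / 27) * a ^ 3 + 4 * a * b - 27 * c) =
      (8 / 3 * a ^ 2 - 9 * b) ^ 2 := by
  have h27 : (27 : K) ≠ 0 := by
    have h : (27 : K) = 3 ^ 3 := by norm_num
    rw [h]
    exact pow_ne_zero 3 h3
  have h1 : (16 / 27 : K) = 16 * (1 / 3) ^ 3 := by
    field_simp
    norm_num
  have h2 : (8 / 3 : K) = 8 * (1 / 3) := by ring
  have h4 : (3 : K) * (1 / 3) = 1 := by
    field_simp
  set g : K := 1 / 3
  rw [h1, h2]
  linear_combination 81 * habc + (64 * g ^ 2 * a ^ 4 + 48 * a ^ 2 * b) * h4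

/-- the quotient of the quotient of `E3 a b c` is isomorphic to `E3 a b c` -/
theorem E3_dual (h3 : (3 : K) ≠ 0) (a b c : K) :
    (⟨1, 4 * a, 0, 0⟩ : VariableChange K) • E3 (-3 * a) (-9 * (8 / 3 * a ^ 2 - 9 * b))
      (-27 * (-(16 / 27) * a ^ 3 + 4 * a * b - 27 * c) -
        8 * (-3 * a) * (8 / 3 * a ^ 2 - 9 * b)) =
      (⟨(Units.mk0 3 h3)⁻¹, 0, 0, 0⟩ : VariableChange K) • E3 a b c := by
  have h27 : (27 : K) ≠ 0 := by
    have h : (27 : K) = 3 ^ 3 := by norm_num
    rw [h]
    exact pow_ne_zero 3 h3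
  ext
  · simp [variableChange_a₁, E3]
  · simp only [variableChange_a₂, E3, inv_one, Units.val_one, inv_inv, Units.val_mk0]
    field_simp
    ring
  · simp [variableChange_a₃, E3]
  · simp only [variableChange_a₄, E3, inv_one, Units.val_one, inv_inv, Units.val_mk0]
    field_simp
    ring
  · simp only [variableChange_a₆, E3, inv_one, Units.val_one, inv_inv, Units.val_mk0]
    field_simp
    ring

end

section
variable (R : Type*) [CommRing R] [IsDomain R] [IsDiscreteValuationRing R]
  {K : Type*} [Field K] [CharZero K] [Algebra R K] [IsFractionRing R K]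

theorem good_two_iff [Finite (IsLocalRing.ResidueField R)] (a b : K) (n : ℕ) :
    Good R (E2 a b) n ↔ Good R (E2 (-2 * a) (a ^ 2 - 4 * b)) n := by
  refine ⟨good_two R a b n, fun h => ?_⟩
  have h1 := good_two R _ _ n h
  rw [E2_dual two_ne_zero] at h1
  exact good_change R _ _ n h1

theorem good_three_iff [Finite (IsLocalRing.ResidueField R)] (a b c : K)
    (habc : 4 * a * c = b ^ 2) (j j' : ℤ) (hj6 : 6 ∣ j) (hj6' : 6 ∣ j')
    (hj : HasJ (E3 a b c) j) (hj' : HasJ (E3 a (-9 * b) (-27 * c - 8 * a * b)) j') (n : ℕ) :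
    Good R (E3 a b c) n ↔ Good R (E3 a (-9 * b) (-27 * c - 8 * a * b)) n := by
  have key : ∀ (a b c : K) (j : ℤ), 6 ∣ j → HasJ (E3 a b c) j →
      ∃ j : R, ((6 : R) ∈ IsLocalRing.maximalIdeal R → j ∈ IsLocalRing.maximalIdeal R) ∧
        (E3 a b c).c₄ ^ 3 = algebraMap R K j * (E3 a b c).Δ := by
    intro a b c j hj hJ
    refine ⟨(j : R), fun h6 => ?_, ?_⟩
    · obtain ⟨k, rfl⟩ := hj
      push_cast
      exact Ideal.mul_mem_right _ _ h6
    · rw [map_intCast]
      exact hJ
  refine ⟨good_three R a b c habc (key a b c j hj6 hj) n, fun h => ?_⟩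
  have h1 := good_change' R _ (⟨1, -4 * a / 3, 0, 0⟩ : VariableChange K) n h
  have h2 := hasJ_change _ (⟨1, -4 * a / 3, 0, 0⟩ : VariableChange K) j' hj'
  rw [E3_shift three_ne_zero] at h1 h2
  have h4 := good_three R _ _ _ (E3_shift_rel three_ne_zero a b c habc) (key _ _ _ j' hj6' h2) n h1
  have h5 := good_change' R _ (⟨1, 4 * a, 0, 0⟩ : VariableChange K) n h4
  rw [E3_dual three_ne_zero a b c] at h5
  exact good_change R _ _ n h5

end

section
variable {N : Type*} [Field N] [NumberField N]

theorem LFunction_eq (W W' : WeierstrassCurve N) (j j' : ℤ) (hj : HasJ W j) (hj' : HasJ W' j')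
    (h : ∀ (p : HeightOneSpectrum (𝓞 N)) (n : ℕ),
      Good (p.adicCompletionIntegers N) (W.baseChange (p.adicCompletion N)) n ↔
        Good (p.adicCompletionIntegers N) (W'.baseChange (p.adicCompletion N)) n) :
    W.LFunction = W'.LFunction := by
  have key : ∀ (V : WeierstrassCurve N) (j : ℤ), HasJ V j → ∀ p : HeightOneSpectrum (𝓞 N),
      ∃ i : p.adicCompletionIntegers N, (V.baseChange (p.adicCompletion N)).c₄ ^ 3 =
        algebraMap (p.adicCompletionIntegers N) (p.adicCompletion N) i *
          (V.baseChange (p.adicCompletion N)).Δ := by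
    intro V j hV p
    refine ⟨(j : p.adicCompletionIntegers N), ?_⟩
    rw [map_intCast]
    exact hasJ_map _ V j hV
  unfold WeierstrassCurve.LFunction
  congr 1
  funext p
  unfold WeierstrassCurve.localEulerFactor WeierstrassCurve.localPowerSeries
  rw [locpoly_eq (p.adicCompletionIntegers N) (W.baseChange (p.adicCompletion N))
    (W'.baseChange (p.adicCompletion N)) (key W j hj p) (key W' j' hj' p)
    (fun n hn => (h p n).1 hn) (fun n hn => (h p n).2 hn)]

theorem LFunction_change (W : WeierstrassCurve N) (C : VariableChange N) (j : ℤ) (hj : HasJ W j) :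
    (C • W).LFunction = W.LFunction := by
  refine LFunction_eq (C • W) W j j (hasJ_change W C j hj) hj fun p n => ?_
  have h1 : (C • W).baseChange (p.adicCompletion N) =
      (C.map (algebraMap N (p.adicCompletion N))) • W.baseChange (p.adicCompletion N) := by
    rw [WeierstrassCurve.baseChange, WeierstrassCurve.baseChange, map_variableChange]
  rw [h1]
  exact ⟨good_change _ _ _ n, good_change' _ _ _ n⟩

theorem LFunction_two (a b : N) (j j' : ℤ) (hj : HasJ (E2 a b) j)
    (hj' : HasJ (E2 (-2 * a) (a ^ 2 - 4 * b)) j') :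
    (E2 (-2 * a) (a ^ 2 - 4 * b)).LFunction = (E2 a b).LFunction := by
  refine (LFunction_eq _ _ j j' hj hj' fun p n => ?_).symm
  have h1 : (E2 a b).baseChange (p.adicCompletion N) =
      E2 (algebraMap N (p.adicCompletion N) a) (algebraMap N (p.adicCompletion N) b) :=
    E2_map _ a b
  have h2 : (E2 (-2 * a) (a ^ 2 - 4 * b)).baseChange (p.adicCompletion N) =
      E2 (-2 * algebraMap N (p.adicCompletion N) a)
        (algebraMap N (p.adicCompletion N) a ^ 2 - 4 * algebraMap N (p.adicCompletion N) b) := by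
    rw [WeierstrassCurve.baseChange, E2_map]
    simp only [map_mul, map_neg, map_sub, map_pow, map_ofNat]
  have : CharZero (p.adicCompletion N) :=
    charZero_of_injective_algebraMap (algebraMap N (p.adicCompletion N)).injective
  have := Pool.Agent.Lib.MP_1a91b9_nt.finite_residue p
  rw [h1, h2]
  exact good_two_iff _ _ _ n

theorem LFunction_three (a b c : N) (habc : 4 * a * c = b ^ 2) (j j' : ℤ) (hj6 : 6 ∣ j)
    (hj6' : 6 ∣ j') (hj : HasJ (E3 a b c) j)
    (hj' : HasJ (E3 a (-9 * b) (-27 * c - 8 * a * b)) j') :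
    (E3 a (-9 * b) (-27 * c - 8 * a * b)).LFunction = (E3 a b c).LFunction := by
  refine (LFunction_eq _ _ j j' hj hj' fun p n => ?_).symm
  have h1 : (E3 a b c).baseChange (p.adicCompletion N) =
      E3 (algebraMap N (p.adicCompletion N) a) (algebraMap N (p.adicCompletion N) b)
        (algebraMap N (p.adicCompletion N) c) := E3_map _ a b c
  have h2 : (E3 a (-9 * b) (-27 * c - 8 * a * b)).baseChange (p.adicCompletion N) =
      E3 (algebraMap N (p.adicCompletion N) a) (-9 * algebraMap N (p.adicCompletion N) b)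
        (-27 * algebraMap N (p.adicCompletion N) c - 8 * algebraMap N (p.adicCompletion N) a *
          algebraMap N (p.adicCompletion N) b) := by
    rw [WeierstrassCurve.baseChange, E3_map]
    simp only [map_mul, map_neg, map_sub, map_ofNat]
  have : CharZero (p.adicCompletion N) :=
    charZero_of_injective_algebraMap (algebraMap N (p.adicCompletion N)).injective
  have := Pool.Agent.Lib.MP_1a91b9_nt.finite_residue p
  rw [h1, h2]
  refine good_three_iff _ _ _ _ ?_ j j' hj6 hj6' ?_ ?_ n
  · rw [← map_ofNat (algebraMap N (p.adicCompletion N)) 4, ← map_mul, ← map_mul, habc, map_pow]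
  · rw [← h1]
    exact hasJ_map _ _ j hj
  · rw [← h2]
    exact hasJ_map _ _ j' hj'

end

end Pool.Agent.Lib.MP_1a91b9_nuI
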