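import Mathlib

/-!
# Isogenies of degree 2 and 3 of Weierstrass curves: definitions

* `E2 a b`: `y² = x³ + a x² + b x`, with the point `(0, 0)` of order 2;
* `form2 a₁ a₂ a₄`: `y² + a₁ x y = x³ + a₂ x² + a₄ x`, with the point `(0, 0)` of order 2, and
  `velu2 a₁ a₂ a₄` its quotient by this point (Vélu);
* `E3 a b c` with `4 a c = b²`: `y² = x³ + a x² + b x + c`, where the points with `x = 0` have order 3;
* `velu3 W`, for `W` with `b₈ = 0` (then the points with `x = 0` have order 3): the quotient of `W`.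
-/

set_option autoImplicit false

namespace Pool.Agent.Lib.MP_1a91b9_nuI

open WeierstrassCurve

section
variable {F : Type*} [CommRing F]

/-- `y² = x³ + a x² + b x` -/
def E2 (a b : F) : WeierstrassCurve F := ⟨0, a, 0, b, 0⟩

/-- `y² = x³ + a x² + b x + c` -/
def E3 (a b c : F) : WeierstrassCurve F := ⟨0, a, 0, b, c⟩

/-- `y² + a₁ x y = x³ + a₂ x² + a₄ x` -/
def form2 (a₁ a₂ a₄ : F) : WeierstrassCurve F := ⟨a₁, a₂, 0, a₄, 0⟩

/-- the quotient of `form2 a₁ a₂ a₄` by the point `(0, 0)` -/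
def velu2 (a₁ a₂ a₄ : F) : WeierstrassCurve F :=
  ⟨a₁, a₂, 0, -4 * a₄, -(a₁ ^ 2 + 4 * a₂) * a₄⟩

/-- the quotient of `W`, `b₈ = 0`, by the points with `x = 0` -/
def velu3 (W : WeierstrassCurve F) : WeierstrassCurve F :=
  ⟨W.a₁, W.a₂, W.a₃, W.a₄ - 5 * W.b₄, W.a₆ - W.b₂ * W.b₄ - 7 * W.b₆⟩

theorem E2_Δ (a b : F) : (E2 a b).Δ = 16 * b ^ 2 * (a ^ 2 - 4 * b) := by
  simp only [E2, WeierstrassCurve.Δ, WeierstrassCurve.b₂, WeierstrassCurve.b₄,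
    WeierstrassCurve.b₆, WeierstrassCurve.b₈]
  ring

theorem form2_Δ (a₁ a₂ a₄ : F) :
    (form2 a₁ a₂ a₄).Δ = a₄ ^ 2 * ((a₁ ^ 2 + 4 * a₂) ^ 2 - 64 * a₄) := by
  simp only [form2, WeierstrassCurve.Δ, WeierstrassCurve.b₂, WeierstrassCurve.b₄,
    WeierstrassCurve.b₆, WeierstrassCurve.b₈]
  ring

theorem velu2_Δ (a₁ a₂ a₄ : F) :
    (velu2 a₁ a₂ a₄).Δ = a₄ * ((a₁ ^ 2 + 4 * a₂) ^ 2 - 64 * a₄) ^ 2 := by
  simp only [velu2, WeierstrassCurve.Δ, WeierstrassCurve.b₂, WeierstrassCurve.b₄,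
    WeierstrassCurve.b₆, WeierstrassCurve.b₈]
  ring

theorem E3_Δ (a b c : F) (h : 4 * a * c = b ^ 2) : (E3 a b c).Δ = 8 * (b ^ 3 - 54 * c ^ 2) := by
  simp only [E3, WeierstrassCurve.Δ, WeierstrassCurve.b₂, WeierstrassCurve.b₄,
    WeierstrassCurve.b₆, WeierstrassCurve.b₈]
  linear_combination (-16 * a ^ 2 + 72 * b) * h

theorem velu3_E3 (a b c : F) : velu3 (E3 a b c) = E3 a (-9 * b) (-27 * c - 8 * a * b) := by
  simp only [velu3, E3, WeierstrassCurve.b₂, WeierstrassCurve.b₄, WeierstrassCurve.b₆]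
  ext <;> ring

theorem E3_b₈ (a b c : F) (h : 4 * a * c = b ^ 2) : (E3 a b c).b₈ = 0 := by
  simp only [E3, WeierstrassCurve.b₈]
  linear_combination h

/-- if `b₈ = 0` then `b₄² = b₂ b₆` -/
theorem b4_sq (W : WeierstrassCurve F) (h : W.b₈ = 0) : W.b₄ ^ 2 = W.b₂ * W.b₆ := by
  have h1 := W.b_relation
  rw [h] at h1
  linear_combination h1

theorem Δ_of_b8 (W : WeierstrassCurve F) (h : W.b₈ = 0) : W.Δ = W.b₄ ^ 3 - 27 * W.b₆ ^ 2 := by
  have h1 := b4_sq W h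
  rw [WeierstrassCurve.Δ, h]
  linear_combination (-9 * W.b₄) * h1

theorem velu3_Δ (W : WeierstrassCurve F) (h : W.b₈ = 0) :
    (velu3 W).Δ = W.b₂ ^ 4 * W.b₄ - 81 * W.b₂ ^ 3 * W.b₆ + 2187 * W.b₂ * W.b₄ * W.b₆ -
      19683 * W.b₆ ^ 2 := by
  have e2 : (velu3 W).b₂ = W.b₂ := rfl
  have e4 : (velu3 W).b₄ = -9 * W.b₄ := by
    simp only [velu3, WeierstrassCurve.b₄]
    ring
  have e6 : (velu3 W).b₆ = -27 * W.b₆ - 4 * W.b₂ * W.b₄ := by
    simp only [velu3, WeierstrassCurve.b₆, WeierstrassCurve.b₄, WeierstrassCurve.b₂]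
    ring
  have e8 : (velu3 W).b₈ = -W.b₂ ^ 2 * W.b₄ - 7 * W.b₂ * W.b₆ - 20 * W.b₄ ^ 2 := by
    rw [← sub_eq_zero] at h ⊢
    rw [← h]
    simp only [velu3, WeierstrassCurve.b₈, WeierstrassCurve.b₆, WeierstrassCurve.b₄,
      WeierstrassCurve.b₂]
    ring
  have h1 := b4_sq W h
  rw [WeierstrassCurve.Δ, e2, e4, e6, e8]
  linear_combination (-88 * W.b₂ ^ 2 + 5832 * W.b₄) * h1

theorem velu3_Δ_mul (W : WeierstrassCurve F) (h : W.b₈ = 0) :
    (velu3 W).Δ * W.b₆ ^ 4 = W.Δ ^ 3 := by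
  have h1 := b4_sq W h
  rw [velu3_Δ W h, Δ_of_b8 W h]
  have h2 : W.b₄ ^ 4 = W.b₂ ^ 2 * W.b₆ ^ 2 := by
    linear_combination (W.b₄ ^ 2 + W.b₂ * W.b₆) * h1
  have h3 : W.b₄ ^ 6 = W.b₂ ^ 3 * W.b₆ ^ 3 := by
    linear_combination W.b₄ ^ 4 * h1 + W.b₂ * W.b₆ * h2
  have h4 : W.b₄ ^ 8 = W.b₂ ^ 4 * W.b₆ ^ 4 := by
    linear_combination W.b₄ ^ 6 * h1 + W.b₂ * W.b₆ * h3
  linear_combination -W.b₄ * h4 + 81 * W.b₆ ^ 2 * h3 - 2187 * W.b₄ * W.b₆ ^ 4 * h1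

end

section
variable {F F' : Type*} [CommRing F] [CommRing F'] (f : F →+* F')

theorem E2_map (a b : F) : (E2 a b).map f = E2 (f a) (f b) := by
  simp [E2, WeierstrassCurve.map]

theorem E3_map (a b c : F) : (E3 a b c).map f = E3 (f a) (f b) (f c) := by
  simp [E3, WeierstrassCurve.map]

theorem form2_map (a₁ a₂ a₄ : F) : (form2 a₁ a₂ a₄).map f = form2 (f a₁) (f a₂) (f a₄) := by
  simp [form2, WeierstrassCurve.map]

theorem velu2_map (a₁ a₂ a₄ : F) : (velu2 a₁ a₂ a₄).map f = velu2 (f a₁) (f a₂) (f a₄) := by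
  simp [velu2, WeierstrassCurve.map, map_ofNat]

theorem velu3_map (W : WeierstrassCurve F) : (velu3 W).map f = velu3 (W.map f) := by
  simp [velu3, WeierstrassCurve.map, WeierstrassCurve.b₂, WeierstrassCurve.b₄,
    WeierstrassCurve.b₆, map_ofNat]

end

section
variable {K : Type*} [Field K]

/-- the `j`-invariant of `W` is the integer `j` -/
def HasJ (W : WeierstrassCurve K) (j : ℤ) : Prop := W.c₄ ^ 3 = (j : K) * W.Δ

theorem hasJ_change (W : WeierstrassCurve K) (C : VariableChange K) (j : ℤ) (h : HasJ W j) :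
    HasJ (C • W) j := by
  unfold HasJ at h ⊢
  rw [variableChange_c₄, variableChange_Δ, mul_pow, h]
  ring

theorem hasJ_map {K' : Type*} [Field K'] (f : K →+* K') (W : WeierstrassCurve K) (j : ℤ)
    (h : HasJ W j) : HasJ (W.map f) j := by
  unfold HasJ at h ⊢
  rw [map_c₄, map_Δ, ← map_pow, h, map_mul, map_intCast]

end

end Pool.Agent.Lib.MP_1a91b9_nuI
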