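import Pool.Agent.Lib.MP_1a91b9_nuI.Defs
import Pool.Agent.Lib.MP_1a91b9_nt.VarChange

/-!
# Points of the 2-isogenous curves over a finite field of odd characteristic
-/

set_option autoImplicit false

namespace Pool.Agent.Lib.MP_1a91b9_nuI

open WeierstrassCurve

private theorem CntO2_char {κ : Type*} [Field κ] (h2 : (2 : κ) ≠ 0) : ringChar κ ≠ 2 := by
  intro h
  apply h2
  have h3 := (ringChar.spec κ 2).2 (by rw [h])
  exact_mod_cast h3

private theorem CntO2_card_sqrt {κ : Type*} [Field κ] [Fintype κ] [DecidableEq κ]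
    (h2 : (2 : κ) ≠ 0) (c : κ) :
    ((Finset.univ.filter fun y : κ => y ^ 2 = c).card : ℤ) = quadraticChar κ c + 1 := by
  rw [← quadraticChar_card_sqrts (CntO2_char h2) c]
  congr 2
  ext y
  simp

private theorem CntO2_card {κ : Type*} [Field κ] [Fintype κ] [DecidableEq κ] (h2 : (2 : κ) ≠ 0)
    (a b : κ) (hΔ : (E2 a b).Δ ≠ 0) :
    (Nat.card (E2 a b).toAffine.Point : ℤ) =
      1 + ∑ x : κ, (quadraticChar κ (x ^ 3 + a * x ^ 2 + b * x) + 1) := by
  have hE : (E2 a b).IsElliptic := ⟨isUnit_iff_ne_zero.2 hΔ⟩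
  have hns : ∀ x y : κ, (E2 a b).toAffine.Nonsingular x y ↔
      y ^ 2 = x ^ 3 + a * x ^ 2 + b * x := by
    intro x y
    rw [← Affine.equation_iff_nonsingular, Affine.equation_iff]
    show y ^ 2 + 0 * x * y + 0 * y = x ^ 3 + a * x ^ 2 + b * x + 0 ↔ _
    rw [zero_mul, zero_mul, add_zero, add_zero, add_zero]
  have h3 : Nat.card (E2 a b).toAffine.Point =
      Nat.card (Option {p : κ × κ // p.2 ^ 2 = p.1 ^ 3 + a * p.1 ^ 2 + b * p.1}) := by
    refine Nat.card_congr ((Pool.Agent.Lib.MP_1a91b9_nt.pointEquivOption (E2 a b)).trans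
      (Equiv.optionCongr (Equiv.subtypeEquivRight fun p => hns p.1 p.2)))
  rw [h3, Finite.card_option, Nat.card_congr (Equiv.subtypeProdEquivSigmaSubtype
    (fun x y : κ => y ^ 2 = x ^ 3 + a * x ^ 2 + b * x)), Nat.card_sigma, add_comm, Nat.cast_add,
    Nat.cast_one, Nat.cast_sum]
  congr 1
  refine Finset.sum_congr rfl fun x _ => ?_
  rw [← CntO2_card_sqrt h2, Nat.card_eq_fintype_card, Fintype.card_subtype]

private theorem CntO2_fiber {κ : Type*} [Field κ] [Fintype κ] [DecidableEq κ] (h2 : (2 : κ) ≠ 0)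
    (a b : κ) (hb : b ≠ 0) (t : κ) :
    ((Finset.univ.filter fun x : κ => x ≠ 0 ∧ x + a + b / x = t).card : ℤ) =
      quadraticChar κ ((t - a) ^ 2 - 4 * b) + 1 := by
  rw [← CntO2_card_sqrt h2]
  congr 1
  refine Finset.card_bij (fun x _ => 2 * x - (t - a)) ?_ ?_ ?_
  · intro x hx
    obtain ⟨hx0, hx1⟩ := (Finset.mem_filter.1 hx).2
    refine Finset.mem_filter.2 ⟨Finset.mem_univ _, ?_⟩
    have h3 : x ^ 2 + a * x + b = t * x := by
      rw [← hx1]
      field_simp
    linear_combination 4 * h3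
  · intro x _ y _ hxy
    have h3 : (2 : κ) * x = 2 * y := by linear_combination hxy
    exact mul_left_cancel₀ h2 h3
  · intro z hz
    have hz1 := (Finset.mem_filter.1 hz).2
    have h4 : (2 : κ) * ((z + (t - a)) / 2) = z + (t - a) := mul_div_cancel₀ _ h2
    set x : κ := (z + (t - a)) / 2 with hx
    have h5 : x ^ 2 - (t - a) * x + b = 0 := by
      have h6 : (4 : κ) * (x ^ 2 - (t - a) * x + b) = 0 := by
        have h7 : z = 2 * x - (t - a) := by linear_combination -h4
        rw [h7] at hz1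
        linear_combination hz1
      rcases mul_eq_zero.1 h6 with h7 | h7
      · exfalso
        have h8 : (2 : κ) * 2 = 0 := by linear_combination h7
        rcases mul_eq_zero.1 h8 with h9 | h9 <;> exact h2 h9
      · exact h7
    have hx0 : x ≠ 0 := by
      intro h6
      rw [h6] at h5
      apply hb
      linear_combination h5
    refine ⟨x, Finset.mem_filter.2 ⟨Finset.mem_univ _, hx0, ?_⟩, ?_⟩
    · field_simp
      linear_combination h5
    · linear_combination h4

private theorem CntO2_sum {κ : Type*} [Field κ] [Fintype κ] [DecidableEq κ] (h2 : (2 : κ) ≠ 0)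
    (a b : κ) (hb : b ≠ 0) :
    ∑ x : κ, quadraticChar κ (x ^ 3 + (-2 * a) * x ^ 2 + (a ^ 2 - 4 * b) * x) =
      ∑ x : κ, quadraticChar κ (x ^ 3 + a * x ^ 2 + b * x) := by
  symm
  have h3 : ∀ x : κ, quadraticChar κ (x ^ 3 + a * x ^ 2 + b * x) =
      ∑ t : κ, (if x ≠ 0 ∧ x + a + b / x = t then quadraticChar κ t else 0) := by
    intro x
    by_cases hx : x = 0
    · subst hx
      rw [Finset.sum_eq_zero fun t _ => if_neg fun h => h.1 rfl]
      have h4 : (0 : κ) ^ 3 + a * 0 ^ 2 + b * 0 = 0 := by ring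
      rw [h4]
      exact MulChar.map_zero _
    · rw [Finset.sum_eq_single (x + a + b / x)]
      · rw [if_pos ⟨hx, rfl⟩]
        have h4 : x ^ 3 + a * x ^ 2 + b * x = x ^ 2 * (x + a + b / x) := by
          field_simp
        rw [h4, map_mul, quadraticChar_sq_one' hx, one_mul]
      · intro t _ ht
        exact if_neg fun h => ht h.2.symm
      · intro h
        exact absurd (Finset.mem_univ _) h
  rw [Finset.sum_congr rfl fun x _ => h3 x, Finset.sum_comm]
  have h4 : ∀ t : κ, ∑ x : κ, (if x ≠ 0 ∧ x + a + b / x = t then quadraticChar κ t else 0) =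
      quadraticChar κ (t ^ 3 + (-2 * a) * t ^ 2 + (a ^ 2 - 4 * b) * t) + quadraticChar κ t := by
    intro t
    rw [← Finset.sum_filter, Finset.sum_const, nsmul_eq_mul, CntO2_fiber h2 a b hb t, add_mul,
      one_mul, ← map_mul]
    congr 2
    ring
  rw [Finset.sum_congr rfl fun t _ => h4 t, Finset.sum_add_distrib,
    quadraticChar_sum_zero (CntO2_char h2), add_zero]

theorem card_E2 {κ : Type*} [Field κ] [Finite κ] (h2 : (2 : κ) ≠ 0) (a b : κ) (hb : b ≠ 0)
    (hd : a ^ 2 - 4 * b ≠ 0) :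
    Nat.card (E2 (-2 * a) (a ^ 2 - 4 * b)).toAffine.Point = Nat.card (E2 a b).toAffine.Point := by
  classical
  have := Fintype.ofFinite κ
  have h4 : (16 : κ) ≠ 0 := by
    have h5 : (16 : κ) = 2 ^ 4 := by norm_num
    rw [h5]
    exact pow_ne_zero 4 h2
  have hΔ1 : (E2 a b).Δ ≠ 0 := by
    rw [E2_Δ]
    exact mul_ne_zero (mul_ne_zero h4 (pow_ne_zero 2 hb)) hd
  have hΔ2 : (E2 (-2 * a) (a ^ 2 - 4 * b)).Δ ≠ 0 := by
    rw [E2_Δ]
    have h5 : (-2 * a) ^ 2 - 4 * (a ^ 2 - 4 * b) = 16 * b := by ring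
    rw [h5]
    exact mul_ne_zero (mul_ne_zero h4 (pow_ne_zero 2 hd)) (mul_ne_zero h4 hb)
  have h6 : (Nat.card (E2 (-2 * a) (a ^ 2 - 4 * b)).toAffine.Point : ℤ) =
      (Nat.card (E2 a b).toAffine.Point : ℤ) := by
    rw [CntO2_card h2 _ _ hΔ1, CntO2_card h2 _ _ hΔ2, Finset.sum_add_distrib,
      Finset.sum_add_distrib, CntO2_sum h2 a b hb]
  exact_mod_cast h6

end Pool.Agent.Lib.MP_1a91b9_nuI
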