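import Pool.Agent.Lib.MP_1a91b9_nuI.TopV
import Pool.Agent.Lib.MP_1a91b9_nuI.Fa.FamW
import Pool.Agent.Lib.MP_1a91b9_nuW.UG.Top

/-!
# Towers over abelian fields with ramification above ordinary prime numbers for all the forms of all the
curves over `ℚ` with complex multiplication
-/

set_option autoImplicit false

namespace Pool.Agent.Lib.MP_1a91b9_nuI

open NumberField IsDedekindDomain WeierstrassCurve Module

/-- the nine maximal orders -/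
theorem nine_W (A B J d : ℤ) (hAB : 4 * A ^ 3 + 27 * B ^ 2 ≠ 0)
    (hj : 6912 * A ^ 3 = J * (4 * A ^ 3 + 27 * B ^ 2)) (hJ : (J, d) ∈ nine) :
    ThmW A B d Con12 := by
  intro K N₀ F₀ L₀ _ _ _ _ _ _ _ _ _ _ _ _ _ _ hK hz hN x y ht hxy hg
  obtain ⟨hns, ht⟩ := ht
  have hc : 6 * (4 * A ^ 3 + 27 * B ^ 2) ≠ 0 := mul_ne_zero (by norm_num) hAB
  obtain ⟨S, hS⟩ := Pool.Agent.Lib.MP_1a91b9_nuW.UG.thmG K N₀ F₀ L₀ hK hJ hz hAB hj hc hN x y hns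
    ht hxy hg
  refine ⟨S, fun ℓ hℓ hℓS => ?_⟩
  intro n N L M _ _ _ _ _ _ _ _ _ _ _ _ hM hR W C hC
  obtain ⟨h1, h2⟩ := hS ℓ hℓ hℓS n N L M hM
    (fun v w hvw => ⟨fun hv => ((hR v w hvw).1 hv).2.2, (hR v w hvw).2⟩) W C hC
  refine ⟨h1, fun hf g g1 g2 => ?_⟩
  obtain ⟨h3, h4, h5, h6, h7⟩ := h2 hf
  exact ⟨h3 g g1 fun s hs => g2 s (by linarith), h4, h5, h6, h7⟩

/-- **The first question.** -/
theorem topX1 (A B J d : ℤ) (hAB : 4 * A ^ 3 + 27 * B ^ 2 ≠ 0)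
    (hj : 6912 * A ^ 3 = J * (4 * A ^ 3 + 27 * B ^ 2)) (hJ : (J, d) ∈ thirteen) :
    ThmX A B d ((A = 0 ∧ B = 16) ∨ (A = -480 ∧ B = 4048)) {3} (fun _ => Con1) :=
  thmX_of (topV1 A B J d hAB hj hJ) (topV1 A B J d hAB hj hJ)
    (allW1 (fun A B J d h1 h2 h3 => (nine_W A B J d h1 h2 h3).imp fun _ _ _ _ _ h => h.1)
      A B J d hAB hj hJ)

/-- **The second question.** -/
theorem topX2 (A B J d : ℤ) (hAB : 4 * A ^ 3 + 27 * B ^ 2 ≠ 0)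
    (hj : 6912 * A ^ 3 = J * (4 * A ^ 3 + 27 * B ^ 2)) (hJ : (J, d) ∈ thirteen) :
    ThmX A B d ((A = 0 ∧ B = 16) ∨ (A = -480 ∧ B = 4048)) (if A = 0 then {3} else {2, 3})
      Con2' := by
  obtain ⟨_, _, _, _, _, _, c, _⟩ := Pool.Agent.Lib.MP_1a91b9_nuX.UF.exists_cd (A := 0) (B := 1)
    (J := 0) (by norm_num) (by norm_num) (by simp [Pool.Agent.Lib.MP_1a91b9_nuX.UF.jList]) 1
    one_ne_zero
  exact thmX_of (topV1 A B J d hAB hj hJ) (topV2 A B J d hAB hj hJ)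
    (allW2 (fun A B J d h1 h2 h3 => (nine_W A B J d h1 h2 h3).imp fun _ _ _ _ _ h => h.2)
      A B J d hAB hj hJ)

end Pool.Agent.Lib.MP_1a91b9_nuI
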