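import Pool.Agent.Lib.MP_1a91b9_nuI.CntV2

/-!
# Degree 2, the point of order 2 is integral on a good model
-/

set_option autoImplicit false

namespace Pool.Agent.Lib.MP_1a91b9_nuI

open WeierstrassCurve Pool.Agent.Lib.MP_1a91b9_nt

/-- translation of a point of order 2 to the origin -/
theorem form2_of_point {F : Type*} [CommRing F] (W : WeierstrassCurve F) (x y : F)
    (h1 : 2 * y + W.a₁ * x + W.a₃ = 0)
    (h2 : y ^ 2 + W.a₁ * x * y + W.a₃ * y = x ^ 3 + W.a₂ * x ^ 2 + W.a₄ * x + W.a₆) :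
    (⟨1, x, 0, y⟩ : VariableChange F) • W =
      form2 W.a₁ (W.a₂ + 3 * x) (W.a₄ + 2 * x * W.a₂ - y * W.a₁ + 3 * x ^ 2) := by
  ext
  · simp [variableChange_a₁, form2]
  · simp [variableChange_a₂, form2]
  · simp only [variableChange_a₃, form2, inv_one, Units.val_one]
    linear_combination h1
  · simp only [variableChange_a₄, form2, inv_one, Units.val_one]
    ring
  · simp only [variableChange_a₆, form2, inv_one, Units.val_one]
    linear_combination -h2

theorem caseA2 {R : Type*} [CommRing R] [IsLocalRing R] [Finite (IsLocalRing.ResidueField R)]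
    (W₀ : WeierstrassCurve R) (hΔ : IsUnit W₀.Δ) (x y : R)
    (h1 : 2 * y + W₀.a₁ * x + W₀.a₃ = 0)
    (h2 : y ^ 2 + W₀.a₁ * x * y + W₀.a₃ * y = x ^ 3 + W₀.a₂ * x ^ 2 + W₀.a₄ * x + W₀.a₆) :
    IsUnit (velu2 W₀.a₁ (W₀.a₂ + 3 * x) (W₀.a₄ + 2 * x * W₀.a₂ - y * W₀.a₁ + 3 * x ^ 2)).Δ ∧
    Nat.card ((velu2 W₀.a₁ (W₀.a₂ + 3 * x)
      (W₀.a₄ + 2 * x * W₀.a₂ - y * W₀.a₁ + 3 * x ^ 2)).map
        (IsLocalRing.residue R)).toAffine.Point =
      Nat.card (W₀.map (IsLocalRing.residue R)).toAffine.Point := by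
  have hf := form2_of_point W₀ x y h1 h2
  set A := W₀.a₂ + 3 * x with hA
  set t := W₀.a₄ + 2 * x * W₀.a₂ - y * W₀.a₁ + 3 * x ^ 2 with ht
  have hD : W₀.Δ = t ^ 2 * ((W₀.a₁ ^ 2 + 4 * A) ^ 2 - 64 * t) := by
    have h3 := congrArg WeierstrassCurve.Δ hf
    rw [variableChange_Δ, form2_Δ] at h3
    simpa using h3
  rw [hD] at hΔ
  have ht1 : IsUnit t := by
    have h3 := isUnit_of_mul_isUnit_left hΔ
    exact (isUnit_pow_iff two_ne_zero).1 h3
  have ht2 : IsUnit ((W₀.a₁ ^ 2 + 4 * A) ^ 2 - 64 * t) := isUnit_of_mul_isUnit_right hΔ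
  refine ⟨?_, ?_⟩
  · rw [velu2_Δ]
    exact ht1.mul (ht2.pow 2)
  · have hr1 : IsLocalRing.residue R t ≠ 0 := (ht1.map (IsLocalRing.residue R)).ne_zero
    have hr2 : (IsLocalRing.residue R W₀.a₁ ^ 2 + 4 * IsLocalRing.residue R A) ^ 2 -
        64 * IsLocalRing.residue R t ≠ 0 := by
      have h3 := (ht2.map (IsLocalRing.residue R)).ne_zero
      simpa [map_ofNat] using h3
    have h3 := card_velu2 (IsLocalRing.residue R W₀.a₁) (IsLocalRing.residue R A)
      (IsLocalRing.residue R t) hr1 hr2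
    rw [velu2_map, h3, ← form2_map, ← hf, ← map_variableChange, card_point_variableChange]

end Pool.Agent.Lib.MP_1a91b9_nuI
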