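import Pool.Agent.Lib.MP_1a91b9_nuI.CntV3
import Pool.Agent.Lib.MP_1a91b9_nt.VarChange

/-!
# The quotient by a group of order 3, integral points (case A)
-/

set_option autoImplicit false

namespace Pool.Agent.Lib.MP_1a91b9_nuI

open WeierstrassCurve

theorem caseA3 {R : Type*} [CommRing R] [IsLocalRing R] [Finite (IsLocalRing.ResidueField R)]
    (W : WeierstrassCurve R) (hΔ : IsUnit W.Δ) (h8 : W.b₈ = 0)
    (hc : (6 : R) ∈ IsLocalRing.maximalIdeal R → W.c₄ ∈ IsLocalRing.maximalIdeal R) :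
    IsUnit (velu3 W).Δ ∧
    Nat.card ((velu3 W).map (IsLocalRing.residue R)).toAffine.Point =
      Nat.card (W.map (IsLocalRing.residue R)).toAffine.Point := by
  set κ := IsLocalRing.ResidueField R
  set V := W.map (IsLocalRing.residue R) with hV
  have hVΔ : V.Δ ≠ 0 := by
    rw [hV, map_Δ]
    exact (hΔ.map (IsLocalRing.residue R)).ne_zero
  have hV8 : V.b₈ = 0 := by
    rw [hV, map_b₈, h8, map_zero]
  have hVc : (6 : κ) = 0 → V.c₄ = 0 := by
    intro h6
    rw [hV, map_c₄, IsLocalRing.residue_eq_zero_iff]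
    apply hc
    rw [← IsLocalRing.residue_eq_zero_iff, map_ofNat]
    exact h6
  have h1 := b4_sq V hV8
  have hb6 : V.b₆ ≠ 0 := by
    intro h0
    apply hVΔ
    have h2 : V.b₄ = 0 := by
      have h3 : V.b₄ ^ 2 = 0 := by rw [h1, h0, mul_zero]
      exact pow_eq_zero_iff two_ne_zero |>.1 h3
    rw [Δ_of_b8 V hV8, h0, h2]
    ring
  have hb2 : (6 : κ) = 0 → V.b₂ = 0 := by
    intro h6
    have h3 := hVc h6
    rw [WeierstrassCurve.c₄] at h3
    have h4 : V.b₂ ^ 2 = 0 := by linear_combination h3 + 4 * V.b₄ * h6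
    exact pow_eq_zero_iff two_ne_zero |>.1 h4
  have h3 : (3 : κ) ≠ 0 := by
    intro h0
    have h6 : (6 : κ) = 0 := by linear_combination 2 * h0
    have h5 := hb2 h6
    apply hVΔ
    have h7 : V.b₄ = 0 := by
      have h3 : V.b₄ ^ 2 = 0 := by rw [h1, h5, zero_mul]
      exact pow_eq_zero_iff two_ne_zero |>.1 h3
    rw [Δ_of_b8 V hV8, h7]
    linear_combination (-9 * V.b₆ ^ 2) * h0
  have h2 : (2 : κ) = 0 → V.a₁ = 0 := by
    intro h0
    have h6 : (6 : κ) = 0 := by linear_combination 3 * h0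
    have h5 := hb2 h6
    rw [WeierstrassCurve.b₂] at h5
    have h4 : V.a₁ ^ 2 = 0 := by linear_combination h5 - 2 * V.a₂ * h0
    exact pow_eq_zero_iff two_ne_zero |>.1 h4
  refine ⟨?_, ?_⟩
  · apply IsLocalRing.residue_ne_zero_iff_isUnit _ |>.1
    rw [← map_Δ, velu3_map]
    intro h0
    have h4 := velu3_Δ_mul V hV8
    rw [h0, zero_mul] at h4
    exact hVΔ (pow_eq_zero_iff three_ne_zero |>.1 h4.symm)
  · rw [velu3_map]
    exact card_velu3 V hV8 hVΔ h3 h2

end Pool.Agent.Lib.MP_1a91b9_nuI
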