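import Pool.Agent.Lib.MP_1a91b9_nuI.Phi

/-!
# Addition of points on `y² = x³ + a₂ x² + a₄ x + a₆`, and a criterion for homomorphisms
-/

set_option autoImplicit false

namespace Pool.Agent.Lib.MP_1a91b9_nuI

open WeierstrassCurve

section
variable {F : Type*} [Field F] [DecidableEq F] (W : WeierstrassCurve F)

theorem neg_pt (h1 : W.a₁ = 0) (h3 : W.a₃ = 0) {x y : F} (h : W.toAffine.Nonsingular x y) :
    ∃ h', -(Affine.Point.some x y h) = Affine.Point.some x (-y) h' := by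
  have h4 : W.toAffine.negY x y = -y := by
    show -y - W.a₁ * x - W.a₃ = -y
    rw [h1, h3]
    ring
  refine ⟨by rw [← h4]; exact (W.toAffine.nonsingular_neg x y).2 h, ?_⟩
  rw [Affine.Point.neg_some]
  simp only [Affine.Point.some.injEq, h4, and_self]

/-- the sum of two points with different first coordinates -/
theorem add_pt (h1 : W.a₁ = 0) (h3 : W.a₃ = 0) {x₁ x₂ y₁ y₂ : F}
    (h₁ : W.toAffine.Nonsingular x₁ y₁) (h₂ : W.toAffine.Nonsingular x₂ y₂) (hx : x₁ ≠ x₂)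
    (l x₃ y₃ : F) (hl : l * (x₁ - x₂) = y₁ - y₂) (hx₃ : x₃ = l ^ 2 - W.a₂ - x₁ - x₂)
    (hy₃ : y₃ = -(l * (x₃ - x₁) + y₁)) :
    ∃ h', Affine.Point.some x₁ y₁ h₁ + Affine.Point.some x₂ y₂ h₂ =
      Affine.Point.some x₃ y₃ h' := by
  have hxy : ¬(x₁ = x₂ ∧ y₁ = W.toAffine.negY x₂ y₂) := fun h => hx h.1
  have hs : W.toAffine.slope x₁ x₂ y₁ y₂ = l := by
    rw [Affine.slope_of_X_ne hx, div_eq_iff (sub_ne_zero.2 hx)]
    exact hl.symm
  have e1 : W.toAffine.addX x₁ x₂ (W.toAffine.slope x₁ x₂ y₁ y₂) = x₃ := by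
    rw [hs, hx₃]
    show l ^ 2 + W.a₁ * l - W.a₂ - x₁ - x₂ = _
    rw [h1]
    ring
  have e2 : W.toAffine.addY x₁ x₂ y₁ (W.toAffine.slope x₁ x₂ y₁ y₂) = y₃ := by
    rw [Affine.addY, Affine.negAddY, e1, hs, hy₃]
    show -(l * (x₃ - x₁) + y₁) - W.a₁ * x₃ - W.a₃ = _
    rw [h1, h3]
    ring
  rw [Affine.Point.add_some hxy]
  refine ⟨?_, ?_⟩
  · rw [← e1, ← e2]
    exact Affine.nonsingular_add h₁ h₂ hxy
  · simp only [Affine.Point.some.injEq, e1, e2, and_self]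

/-- the double of a point with `y ≠ 0` -/
theorem double_pt (h1 : W.a₁ = 0) (h3 : W.a₃ = 0) (h2 : (2 : F) ≠ 0) {x₁ y₁ : F}
    (h₁ : W.toAffine.Nonsingular x₁ y₁) (hy : y₁ ≠ 0)
    (l x₃ y₃ : F) (hl : l * (2 * y₁) = 3 * x₁ ^ 2 + 2 * W.a₂ * x₁ + W.a₄)
    (hx₃ : x₃ = l ^ 2 - W.a₂ - 2 * x₁) (hy₃ : y₃ = -(l * (x₃ - x₁) + y₁)) :
    ∃ h', Affine.Point.some x₁ y₁ h₁ + Affine.Point.some x₁ y₁ h₁ =
      Affine.Point.some x₃ y₃ h' := by
  have hn : W.toAffine.negY x₁ y₁ = -y₁ := by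
    show -y₁ - W.a₁ * x₁ - W.a₃ = -y₁
    rw [h1, h3]
    ring
  have hy' : y₁ ≠ W.toAffine.negY x₁ y₁ := by
    rw [hn]
    intro h
    apply hy
    have h4 : 2 * y₁ = 0 := by linear_combination h
    exact (mul_eq_zero.1 h4).resolve_left h2
  have hxy : ¬(x₁ = x₁ ∧ y₁ = W.toAffine.negY x₁ y₁) := fun h => hy' h.2
  have hs : W.toAffine.slope x₁ x₁ y₁ y₁ = l := by
    rw [Affine.slope_of_Y_ne rfl hy', hn, div_eq_iff]
    · show 3 * x₁ ^ 2 + 2 * W.a₂ * x₁ + W.a₄ - W.a₁ * y₁ = _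
      rw [h1]
      linear_combination -hl
    · intro h
      apply hy
      have h4 : 2 * y₁ = 0 := by linear_combination h
      exact (mul_eq_zero.1 h4).resolve_left h2
  have e1 : W.toAffine.addX x₁ x₁ (W.toAffine.slope x₁ x₁ y₁ y₁) = x₃ := by
    rw [hs, hx₃]
    show l ^ 2 + W.a₁ * l - W.a₂ - x₁ - x₁ = _
    rw [h1]
    ring
  have e2 : W.toAffine.addY x₁ x₁ y₁ (W.toAffine.slope x₁ x₁ y₁ y₁) = y₃ := by
    rw [Affine.addY, Affine.negAddY, e1, hs, hy₃]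
    show -(l * (x₃ - x₁) + y₁) - W.a₁ * x₃ - W.a₃ = _
    rw [h1, h3]
    ring
  rw [Affine.Point.add_some hxy]
  refine ⟨?_, ?_⟩
  · rw [← e1, ← e2]
    exact Affine.nonsingular_add h₁ h₁ hxy
  · simp only [Affine.Point.some.injEq, e1, e2, and_self]

/-- a point with `y = 0` has order two -/
theorem double_zero (h1 : W.a₁ = 0) (h3 : W.a₃ = 0) {x : F} (h : W.toAffine.Nonsingular x 0) :
    Affine.Point.some x 0 h + Affine.Point.some x 0 h = 0 := by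
  rw [Affine.Point.add_self_of_Y_eq]
  show (0 : F) = -0 - W.a₁ * x - W.a₃
  rw [h1, h3]
  ring

/-- the points with `x = 0`, and the origin -/
def xz : W.toAffine.Point → Prop
  | .zero => True
  | .some x _ _ => x = 0

theorem xz_zero : xz W 0 := trivial

theorem xz_neg (P : W.toAffine.Point) (h : xz W P) : xz W (-P) := by
  rcases P with _ | ⟨x, y, hP⟩
  · exact trivial
  · exact h

/-- the product of the first coordinates of `P + Q` and `P - Q` -/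
theorem prod_formula (a b c x₁ x₂ y₁ y₂ : F) (hx : x₁ ≠ x₂)
    (h₁ : y₁ ^ 2 = x₁ ^ 3 + a * x₁ ^ 2 + b * x₁ + c)
    (h₂ : y₂ ^ 2 = x₂ ^ 3 + a * x₂ ^ 2 + b * x₂ + c) :
    (((y₁ - y₂) / (x₁ - x₂)) ^ 2 - a - x₁ - x₂) * (((y₁ + y₂) / (x₁ - x₂)) ^ 2 - a - x₁ - x₂) *
      (x₁ - x₂) ^ 2 = x₁ ^ 2 * x₂ ^ 2 - 2 * b * x₁ * x₂ - 4 * c * (x₁ + x₂) -
        (4 * a * c - b ^ 2) := by
  have h0 : x₁ - x₂ ≠ 0 := sub_ne_zero.2 hx
  obtain ⟨p, hp⟩ : ∃ p, p = (y₁ - y₂) / (x₁ - x₂) := ⟨_, rfl⟩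
  obtain ⟨r, hr⟩ : ∃ r, r = (y₁ + y₂) / (x₁ - x₂) := ⟨_, rfl⟩
  rw [← hp, ← hr]
  rw [eq_div_iff h0] at hp hr
  have hpr : p * r * (x₁ - x₂) = x₁ ^ 2 + x₁ * x₂ + x₂ ^ 2 + a * (x₁ + x₂) + b := by
    apply mul_left_cancel₀ h0
    linear_combination r * (x₁ - x₂) * hp + (y₁ - y₂) * hr + h₁ - h₂
  linear_combination (p * r * (x₁ - x₂) + (x₁ ^ 2 + x₁ * x₂ + x₂ ^ 2 + a * (x₁ + x₂) + b)) * hpr -
    (a + x₁ + x₂) * (p * (x₁ - x₂) + (y₁ - y₂)) * hp -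
    (a + x₁ + x₂) * (r * (x₁ - x₂) + (y₁ + y₂)) * hr -
    2 * (a + x₁ + x₂) * (h₁ + h₂)

omit [DecidableEq F] in
/-- The criterion: a map which is additive generically, and additive when one of the arguments is in
a finite set, is additive. -/
theorem hom_of_generic {G H : Type*} [AddCommGroup G] [AddCommGroup H] [Infinite G] (f : G → H)
    (S : Set G) (hS : S.Finite) (h1 : ∀ s ∈ S, ∀ P, f (s + P) = f s + f P)
    (h2 : ∀ P Q, P ∉ S → Q ∉ S → P + Q ∉ S → P - Q ∉ S → f (P + Q) = f P + f Q) (P Q : G) :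
    f (P + Q) = f P + f Q := by
  have key : ∀ P : G, ∃ B : Set G, B.Finite ∧ ∀ R, R ∉ B → f (P + R) = f P + f R := by
    intro P
    by_cases hP : P ∈ S
    · exact ⟨∅, Set.finite_empty, fun R _ => h1 P hP R⟩
    · refine ⟨S ∪ (fun s => s - P) '' S ∪ (fun s => P - s) '' S, ?_, fun R hR => ?_⟩
      · exact (hS.union (hS.image _)).union (hS.image _)
      · simp only [Set.mem_union, Set.mem_image, not_or, not_exists, not_and] at hR
        obtain ⟨⟨h3, h4⟩, h5⟩ := hR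
        apply h2 P R hP h3
        · intro h6
          exact h4 _ h6 (by abel)
        · intro h6
          exact h5 _ h6 (by abel)
  obtain ⟨B₁, hB₁, k₁⟩ := key P
  obtain ⟨B₂, hB₂, k₂⟩ := key Q
  obtain ⟨B₃, hB₃, k₃⟩ := key (P + Q)
  obtain ⟨R, hR⟩ := ((hB₂.union hB₃).union (hB₁.image fun s => s - Q)).exists_notMem
  simp only [Set.mem_union, Set.mem_image, not_or, not_exists, not_and] at hR
  obtain ⟨⟨h3, h4⟩, h5⟩ := hR
  have e1 := k₃ R h4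
  have e2 := k₁ (Q + R) (fun h6 => h5 _ h6 (by abel))
  have e3 := k₂ R h3
  rw [e3, ← add_assoc, e1, ← add_assoc] at e2
  exact add_right_cancel e2

end

end Pool.Agent.Lib.MP_1a91b9_nuI
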