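import Pool.Agent.Lib.MP_1a91b9_nuI.CntV2

/-!
# Degree 2, the point of order 2 in the kernel of reduction

`W₀` a curve over a local ring `R` with unit discriminant whose residue characteristic is `2`,
`(x₀, y₀)` a point of order `2` over a field `K` containing `R` with `e = 1 / x₀`, `k = y₀ / x₀²` in the maximal
ideal. With `h = 2 y₀ / x₀`, `g = 1 + a₂ e + a₄ e² + a₆ e³` the quotient by `(x₀, y₀)` has the integral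
model `mod2` with unit discriminant, whose reduction is isomorphic to the Frobenius twist of the
reduction of `W₀`.
-/

set_option autoImplicit false

namespace Pool.Agent.Lib.MP_1a91b9_nuI

open WeierstrassCurve

section
variable {F : Type*} [CommRing F]

/-- the integral model of the quotient -/
def mod2 (a₂ a₃ a₄ a₆ e k h : F) : WeierstrassCurve F :=
  let g := 1 + a₂ * e + a₄ * e ^ 2 + a₆ * e ^ 3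
  ⟨h ^ 2 - a₃ * k,
   a₂ * h ^ 2 - 6 * g * a₄ - 9 * g * e * a₆,
   g * (3 * k * a₃ * a₄ + 4 * k * e * a₃ * a₆ + g * (a₃ ^ 2 - 4 * a₆)),
   g ^ 2 * (2 * h * a₃ * a₄ - 2 * e * a₄ * a₆ + a₂ * a₃ ^ 2 - 8 * a₂ * a₆ + a₄ ^ 2) +
     3 * g * h ^ 2 * a₆,
   g ^ 3 * (3 * a₃ ^ 2 * a₆ - 4 * a₆ ^ 2 +
     e * (3 * a₂ * a₃ ^ 2 * a₆ - 4 * a₂ * a₆ ^ 2 + 2 * a₃ ^ 2 * a₄ ^ 2 - a₄ ^ 2 * a₆) +
     e ^ 2 * (8 * a₃ ^ 2 * a₄ * a₆ - 8 * a₄ * a₆ ^ 2) +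
     e ^ 3 * (6 * a₃ ^ 2 * a₆ ^ 2 - 8 * a₆ ^ 3) +
     k * (8 * a₃ * a₄ * a₆ - a₃ ^ 3 * a₄) + k * e * (12 * a₃ * a₆ ^ 2 - a₃ ^ 3 * a₆))⟩

theorem mod2_map {F' : Type*} [CommRing F'] (f : F →+* F') (a₂ a₃ a₄ a₆ e k h : F) :
    (mod2 a₂ a₃ a₄ a₆ e k h).map f = mod2 (f a₂) (f a₃) (f a₄) (f a₆) (f e) (f k) (f h) := by
  simp [mod2, WeierstrassCurve.map, map_ofNat]

end

/-- The change of variables from Vélu's model to the integral model. -/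
theorem mod2_change {K : Type*} [Field K] (a₂ a₃ a₄ a₆ e s : K) (he : e ≠ 0) (hs : s ≠ 0)
    (hrel : s ^ 2 * e + (1 + a₂ * e + a₄ * e ^ 2 + a₆ * e ^ 3) = 0) :
    (⟨(Units.mk0 s hs)⁻¹, -2 * e⁻¹ + a₄ * e + 2 * a₆ * e ^ 2 - a₃ * (s * e), 3 * s,
      -2 * s * e⁻¹ + a₄ * s * e + a₂ * a₃ * e⟩ : VariableChange K) •
      velu2 (-2 * s - a₃ * e) (a₂ + 3 * e⁻¹)
        (a₄ + 2 * e⁻¹ * a₂ - s * e⁻¹ * (-2 * s - a₃ * e) + 3 * e⁻¹ ^ 2) =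
    mod2 a₂ a₃ a₄ a₆ e (s * e) (2 * s) := by
  have hg : 1 + a₂ * e + a₄ * e ^ 2 + a₆ * e ^ 3 = -(s ^ 2 * e) := by linear_combination hrel
  ext
  · simp only [variableChange_a₁, velu2, mod2, inv_inv, Units.val_mk0]
    ring
  · simp only [variableChange_a₂, velu2, mod2, inv_inv, Units.val_mk0]
    rw [hg]
    have key : ((a₂ + 3 * e⁻¹) - 3 * s * (-2 * s - a₃ * e) +
        3 * (-2 * e⁻¹ + a₄ * e + 2 * a₆ * e ^ 2 - a₃ * (s * e)) - (3 * s) ^ 2) -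
        (4 * a₂ + 6 * e * a₄ + 9 * e ^ 2 * a₆) =
        (-3 * e⁻¹) * (s ^ 2 * e + (1 + a₂ * e + a₄ * e ^ 2 + a₆ * e ^ 3)) := by
      field_simp
      ring
    rw [hrel, mul_zero] at key
    linear_combination s ^ 2 * key
  · simp only [variableChange_a₃, velu2, mod2, inv_inv, Units.val_mk0]
    rw [hg]
    have key : (0 + (-2 * e⁻¹ + a₄ * e + 2 * a₆ * e ^ 2 - a₃ * (s * e)) * (-2 * s - a₃ * e) +
        2 * (-2 * s * e⁻¹ + a₄ * s * e + a₂ * a₃ * e)) -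
        (-(e ^ 2 * (3 * a₃ * a₄ + 4 * e * a₃ * a₆)) + s * e ^ 2 * (a₃ ^ 2 - 4 * a₆)) =
        (2 * a₃) * (s ^ 2 * e + (1 + a₂ * e + a₄ * e ^ 2 + a₆ * e ^ 3)) := by
      field_simp
      ring
    rw [hrel, mul_zero] at key
    linear_combination s ^ 3 * key
  · simp only [variableChange_a₄, velu2, mod2, inv_inv, Units.val_mk0]
    rw [hg]
    have key : (-4 * (a₄ + 2 * e⁻¹ * a₂ - s * e⁻¹ * (-2 * s - a₃ * e) + 3 * e⁻¹ ^ 2) -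
        3 * s * 0 + 2 * (-2 * e⁻¹ + a₄ * e + 2 * a₆ * e ^ 2 - a₃ * (s * e)) * (a₂ + 3 * e⁻¹) -
        ((-2 * s * e⁻¹ + a₄ * s * e + a₂ * a₃ * e) +
          (-2 * e⁻¹ + a₄ * e + 2 * a₆ * e ^ 2 - a₃ * (s * e)) * (3 * s)) *
          (-2 * s - a₃ * e) +
        3 * (-2 * e⁻¹ + a₄ * e + 2 * a₆ * e ^ 2 - a₃ * (s * e)) ^ 2 -
        2 * (3 * s) * (-2 * s * e⁻¹ + a₄ * s * e + a₂ * a₃ * e)) -
        (e ^ 2 * (4 * s * a₃ * a₄ - 2 * e * a₄ * a₆ + a₂ * a₃ ^ 2 - 8 * a₂ * a₆ + a₄ ^ 2) -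
          12 * e * a₆) =
        (-6 * s * a₃ + 12 * e * a₆ + 2 * a₄ - 12 * e⁻¹ ^ 2) *
          (s ^ 2 * e + (1 + a₂ * e + a₄ * e ^ 2 + a₆ * e ^ 3)) := by
      field_simp
      ring
    rw [hrel, mul_zero] at key
    linear_combination s ^ 4 * key
  · simp only [variableChange_a₆, velu2, mod2, inv_inv, Units.val_mk0]
    rw [hg]
    have key : (-((-2 * s - a₃ * e) ^ 2 + 4 * (a₂ + 3 * e⁻¹)) *
          (a₄ + 2 * e⁻¹ * a₂ - s * e⁻¹ * (-2 * s - a₃ * e) + 3 * e⁻¹ ^ 2) +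
        (-2 * e⁻¹ + a₄ * e + 2 * a₆ * e ^ 2 - a₃ * (s * e)) *
          (-4 * (a₄ + 2 * e⁻¹ * a₂ - s * e⁻¹ * (-2 * s - a₃ * e) + 3 * e⁻¹ ^ 2)) +
        (-2 * e⁻¹ + a₄ * e + 2 * a₆ * e ^ 2 - a₃ * (s * e)) ^ 2 * (a₂ + 3 * e⁻¹) +
        (-2 * e⁻¹ + a₄ * e + 2 * a₆ * e ^ 2 - a₃ * (s * e)) ^ 3 -
        (-2 * s * e⁻¹ + a₄ * s * e + a₂ * a₃ * e) * 0 -
        (-2 * s * e⁻¹ + a₄ * s * e + a₂ * a₃ * e) ^ 2 -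
        (-2 * e⁻¹ + a₄ * e + 2 * a₆ * e ^ 2 - a₃ * (s * e)) *
          (-2 * s * e⁻¹ + a₄ * s * e + a₂ * a₃ * e) * (-2 * s - a₃ * e)) -
        (-(e ^ 3 * (3 * a₃ ^ 2 * a₆ - 4 * a₆ ^ 2 +
          e * (3 * a₂ * a₃ ^ 2 * a₆ - 4 * a₂ * a₆ ^ 2 + 2 * a₃ ^ 2 * a₄ ^ 2 - a₄ ^ 2 * a₆) +
          e ^ 2 * (8 * a₃ ^ 2 * a₄ * a₆ - 8 * a₄ * a₆ ^ 2) +
          e ^ 3 * (6 * a₃ ^ 2 * a₆ ^ 2 - 8 * a₆ ^ 3) +
          s * e * (8 * a₃ * a₄ * a₆ - a₃ ^ 3 * a₄) +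
          s * e * e * (12 * a₃ * a₆ ^ 2 - a₃ ^ 3 * a₆)))) =
        (-8 * s ^ 2 * e⁻¹ ^ 2 - s * e ^ 2 * a₃ ^ 3 - 2 * s * e * a₃ * a₄ + 6 * e ^ 3 * a₃ ^ 2 * a₆ +
          2 * e ^ 2 * a₃ ^ 2 * a₄ + 4 * e ^ 2 * a₄ * a₆ - e * a₂ * a₃ ^ 2 + e * a₄ ^ 2 -
          3 * a₃ ^ 2 - 16 * a₆ - 8 * e⁻¹ * a₄ - 8 * e⁻¹ ^ 2 * a₂ - 8 * e⁻¹ ^ 3) *
          (s ^ 2 * e + (1 + a₂ * e + a₄ * e ^ 2 + a₆ * e ^ 3)) := by
      field_simp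
      ring
    rw [hrel, mul_zero] at key
    linear_combination s ^ 6 * key

end Pool.Agent.Lib.MP_1a91b9_nuI
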