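import Pool.Agent.Lib.MP_1a91b9_nuI.B2
import Pool.Agent.Lib.MP_1a91b9_nt.VarChange

/-!
# Degree 2, the point of order 2 in the kernel of reduction: the reduction of the integral model
-/

set_option autoImplicit false

namespace Pool.Agent.Lib.MP_1a91b9_nuI

open WeierstrassCurve Pool.Agent.Lib.MP_1a91b9_nt

/-- In characteristic 2 the reduction of `mod2` is isomorphic to the Frobenius twist. -/
theorem mod2_frob {κ : Type*} [Field κ] [CharP κ 2] (W : WeierstrassCurve κ) :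
    mod2 W.a₂ W.a₃ W.a₄ W.a₆ 0 0 (-W.a₁) =
      (⟨1, 0, W.a₂, W.a₆⟩ : VariableChange κ) • W.map (frobenius κ 2) := by
  have h2 : (2 : κ) = 0 := CharTwo.two_eq_zero
  ext
  · simp only [variableChange_a₁, mod2, WeierstrassCurve.map, frobenius_def, inv_one,
      Units.val_one]
    linear_combination (-W.a₂) * h2
  · simp only [variableChange_a₂, mod2, WeierstrassCurve.map, frobenius_def, inv_one,
      Units.val_one]
    linear_combination (-3 * W.a₄ + W.a₂ * W.a₁ ^ 2) * h2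
  · simp only [variableChange_a₃, mod2, WeierstrassCurve.map, frobenius_def, inv_one,
      Units.val_one]
    linear_combination (-3 * W.a₆) * h2
  · simp only [variableChange_a₄, mod2, WeierstrassCurve.map, frobenius_def, inv_one,
      Units.val_one]
    linear_combination (-W.a₁ * W.a₃ * W.a₄ + W.a₂ * W.a₃ ^ 2 - 3 * W.a₂ * W.a₆ +
      2 * W.a₁ ^ 2 * W.a₆) * h2
  · simp only [variableChange_a₆, mod2, WeierstrassCurve.map, frobenius_def, inv_one,
      Units.val_one]
    linear_combination (2 * W.a₃ ^ 2 * W.a₆ - 2 * W.a₆ ^ 2) * h2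

theorem mod2_card {κ : Type*} [Field κ] [Finite κ] [CharP κ 2] (W : WeierstrassCurve κ) :
    Nat.card (mod2 W.a₂ W.a₃ W.a₄ W.a₆ 0 0 (-W.a₁)).toAffine.Point =
      Nat.card W.toAffine.Point := by
  rw [mod2_frob, card_point_variableChange]
  have h := card_point_map_equiv W (frobeniusEquiv κ 2)
  rw [← h]
  rfl

theorem mod2_Δ {κ : Type*} [Field κ] [CharP κ 2] (W : WeierstrassCurve κ) :
    (mod2 W.a₂ W.a₃ W.a₄ W.a₆ 0 0 (-W.a₁)).Δ = W.Δ ^ 2 := by
  rw [mod2_frob, variableChange_Δ, map_Δ, frobenius_def, inv_one, Units.val_one, one_pow, one_mul]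

theorem caseB2 {R : Type*} [CommRing R] [IsLocalRing R] [Finite (IsLocalRing.ResidueField R)]
    {K : Type*} [Field K] [Algebra R K] (W₀ : WeierstrassCurve R) (hΔ : IsUnit W₀.Δ)
    (h2 : (2 : R) ∈ IsLocalRing.maximalIdeal R) (e k h : R)
    (he : e ∈ IsLocalRing.maximalIdeal R) (hk : k ∈ IsLocalRing.maximalIdeal R)
    (ha : W₀.a₁ = -h - W₀.a₃ * e) (s : K) (hs : s ≠ 0) (he0 : algebraMap R K e ≠ 0)
    (hks : algebraMap R K k = s * algebraMap R K e) (hhs : algebraMap R K h = 2 * s)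
    (hrel : s ^ 2 * algebraMap R K e + (1 + algebraMap R K W₀.a₂ * algebraMap R K e +
      algebraMap R K W₀.a₄ * algebraMap R K e ^ 2 + algebraMap R K W₀.a₆ *
        algebraMap R K e ^ 3) = 0) :
    ∃ (C : VariableChange K) (W₁ : WeierstrassCurve R),
      C • velu2 (algebraMap R K W₀.a₁) (algebraMap R K W₀.a₂ + 3 * (algebraMap R K e)⁻¹)
        (algebraMap R K W₀.a₄ + 2 * (algebraMap R K e)⁻¹ * algebraMap R K W₀.a₂ -
          s * (algebraMap R K e)⁻¹ * algebraMap R K W₀.a₁ + 3 * (algebraMap R K e)⁻¹ ^ 2) =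
        W₁.map (algebraMap R K) ∧ IsUnit W₁.Δ ∧
      Nat.card (W₁.map (IsLocalRing.residue R)).toAffine.Point =
        Nat.card (W₀.map (IsLocalRing.residue R)).toAffine.Point := by
  set κ := IsLocalRing.ResidueField R
  have h2' : (2 : κ) = 0 := by
    have h3 := (IsLocalRing.residue_eq_zero_iff (2 : R)).2 h2
    rwa [map_ofNat] at h3
  have : CharP κ 2 := CharTwo.of_one_ne_zero_of_two_eq_zero one_ne_zero h2'
  have he' : IsLocalRing.residue R e = 0 := (IsLocalRing.residue_eq_zero_iff e).2 he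
  have hk' : IsLocalRing.residue R k = 0 := (IsLocalRing.residue_eq_zero_iff k).2 hk
  have hh' : IsLocalRing.residue R h = -(W₀.map (IsLocalRing.residue R)).a₁ := by
    have h3 : h = -W₀.a₁ - W₀.a₃ * e := by rw [ha]; ring
    rw [h3, map_sub, map_mul, he', mul_zero, sub_zero, map_neg]
    rfl
  have hred : (mod2 W₀.a₂ W₀.a₃ W₀.a₄ W₀.a₆ e k h).map (IsLocalRing.residue R) =
      mod2 (W₀.map (IsLocalRing.residue R)).a₂ (W₀.map (IsLocalRing.residue R)).a₃
        (W₀.map (IsLocalRing.residue R)).a₄ (W₀.map (IsLocalRing.residue R)).a₆ 0 0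
        (-(W₀.map (IsLocalRing.residue R)).a₁) := by
    rw [mod2_map, he', hk', hh']
    rfl
  refine ⟨⟨(Units.mk0 s hs)⁻¹, -2 * (algebraMap R K e)⁻¹ + algebraMap R K W₀.a₄ *
      algebraMap R K e + 2 * algebraMap R K W₀.a₆ * algebraMap R K e ^ 2 -
      algebraMap R K W₀.a₃ * (s * algebraMap R K e), 3 * s,
      -2 * s * (algebraMap R K e)⁻¹ + algebraMap R K W₀.a₄ * s * algebraMap R K e +
      algebraMap R K W₀.a₂ * algebraMap R K W₀.a₃ * algebraMap R K e⟩,
    mod2 W₀.a₂ W₀.a₃ W₀.a₄ W₀.a₆ e k h, ?_, ?_, ?_⟩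
  · have h3 := mod2_change (algebraMap R K W₀.a₂) (algebraMap R K W₀.a₃) (algebraMap R K W₀.a₄)
      (algebraMap R K W₀.a₆) (algebraMap R K e) s he0 hs hrel
    have h4 : algebraMap R K W₀.a₁ = -2 * s - algebraMap R K W₀.a₃ * algebraMap R K e := by
      rw [ha, map_sub, map_neg, map_mul, hhs]
      ring
    rw [h4, mod2_map, hks, hhs]
    exact h3
  · apply IsLocalRing.residue_ne_zero_iff_isUnit _ |>.1
    have h3 : IsLocalRing.residue R (mod2 W₀.a₂ W₀.a₃ W₀.a₄ W₀.a₆ e k h).Δ =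
        (W₀.map (IsLocalRing.residue R)).Δ ^ 2 := by
      rw [← map_Δ, hred, mod2_Δ]
    rw [h3, map_Δ]
    exact pow_ne_zero 2 (hΔ.map (IsLocalRing.residue R)).ne_zero
  · rw [hred, mod2_card]

end Pool.Agent.Lib.MP_1a91b9_nuI
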