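import Pool.Agent.Lib.MP_1a91b9_nuI.Defs
import Pool.Agent.Lib.MP_1a91b9_nt.VarChange

/-!
# Degree 3, the points of order 3 in the kernel of reduction

`W₀ : y² = x³ + a₂ x² + a₄ x + a₆` over a local ring `R` with unit discriminant and residue
characteristic `3`, `x₀ = 1 / e` the abscissa of a point of order `3`, `e` in the maximal ideal. With
`h = 3 / e` the quotient has the integral model `mod3`, whose reduction is the Frobenius twist of the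
reduction of `W₀`.
-/

set_option autoImplicit false

namespace Pool.Agent.Lib.MP_1a91b9_nuI

open WeierstrassCurve Pool.Agent.Lib.MP_1a91b9_nt

section
variable {F : Type*} [CommRing F]

/-- the integral model of the quotient -/
def mod3 (a₂ a₄ a₆ e h : F) : WeierstrassCurve F :=
  ⟨0, h ^ 2 * a₂ + 6 * h * a₄ + 36 * a₆ + 2 * e * (4 * a₂ * a₆ - a₄ ^ 2), 0,
   -4 * h * a₄ * a₆ - 48 * a₆ ^ 2 + a₄ ^ 3 - 4 * a₂ * a₄ * a₆ -
     8 * e * a₆ * (4 * a₂ * a₆ - a₄ ^ 2),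
   16 * a₆ ^ 3 + 8 * e * a₆ ^ 2 * (4 * a₂ * a₆ - a₄ ^ 2) +
     e ^ 2 * a₆ * (4 * a₂ * a₆ - a₄ ^ 2) ^ 2⟩

theorem mod3_map {F' : Type*} [CommRing F'] (f : F →+* F') (a₂ a₄ a₆ e h : F) :
    (mod3 a₂ a₄ a₆ e h).map f = mod3 (f a₂) (f a₄) (f a₆) (f e) (f h) := by
  simp [mod3, WeierstrassCurve.map, map_ofNat]

end

/-- The change of variables from Vélu's model to the integral model. -/
theorem mod3_change {K : Type*} [Field K] (a₂ a₄ a₆ e : K) (he : e ≠ 0)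
    (hrel : 3 + 4 * a₂ * e + 6 * a₄ * e ^ 2 + 12 * a₆ * e ^ 3 +
      (4 * a₂ * a₆ - a₄ ^ 2) * e ^ 4 = 0) :
    (⟨Units.mk0 e he, -(3 * e⁻¹) + 2 * a₄ * e + 4 * a₆ * e ^ 2, 0, 0⟩ : VariableChange K) •
      velu3 ((⟨1, e⁻¹, 0, 0⟩ : VariableChange K) • (⟨0, a₂, 0, a₄, a₆⟩ : WeierstrassCurve K)) =
    mod3 a₂ a₄ a₆ e (3 * e⁻¹) := by
  ext
  · simp [variableChange_a₁, velu3, mod3]
  · simp only [variableChange_a₁, variableChange_a₂, variableChange_a₃, variableChange_a₄,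
      variableChange_a₆, velu3, mod3, Units.val_mk0, inv_one, Units.val_one,
      WeierstrassCurve.b₂, WeierstrassCurve.b₄, WeierstrassCurve.b₆, Units.val_inv_eq_inv_val]
    have key : ((a₂ + 3 * e⁻¹) + 3 * (-(3 * e⁻¹) + 2 * a₄ * e + 4 * a₆ * e ^ 2)) -
        e ^ 2 * ((3 * e⁻¹) ^ 2 * a₂ + 6 * (3 * e⁻¹) * a₄ + 36 * a₆ +
          2 * e * (4 * a₂ * a₆ - a₄ ^ 2)) =
        (-2 * e⁻¹) * (3 + 4 * a₂ * e + 6 * a₄ * e ^ 2 + 12 * a₆ * e ^ 3 +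
          (4 * a₂ * a₆ - a₄ ^ 2) * e ^ 4) := by
      field_simp
      ring
    rw [hrel, mul_zero] at key
    have h1 : e⁻¹ ^ 2 * e ^ 2 = 1 := by
      rw [← mul_pow, inv_mul_cancel₀ he, one_pow]
    linear_combination e⁻¹ ^ 2 * key + ((3 * e⁻¹) ^ 2 * a₂ + 6 * (3 * e⁻¹) * a₄ + 36 * a₆ +
          2 * e * (4 * a₂ * a₆ - a₄ ^ 2)) * h1
  · simp [variableChange_a₁, variableChange_a₃, velu3, mod3]
  · simp only [variableChange_a₁, variableChange_a₂, variableChange_a₃, variableChange_a₄,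
      variableChange_a₆, velu3, mod3, Units.val_mk0, inv_one, Units.val_one,
      WeierstrassCurve.b₂, WeierstrassCurve.b₄, WeierstrassCurve.b₆, Units.val_inv_eq_inv_val]
    have key : (((a₄ + 2 * a₂ * e⁻¹ + 3 * e⁻¹ ^ 2) - 10 * (a₄ + 2 * a₂ * e⁻¹ + 3 * e⁻¹ ^ 2)) +
        2 * (-(3 * e⁻¹) + 2 * a₄ * e + 4 * a₆ * e ^ 2) * (a₂ + 3 * e⁻¹) +
        3 * (-(3 * e⁻¹) + 2 * a₄ * e + 4 * a₆ * e ^ 2) ^ 2) -
        e ^ 4 * (-4 * (3 * e⁻¹) * a₄ * a₆ - 48 * a₆ ^ 2 + a₄ ^ 3 - 4 * a₂ * a₄ * a₆ -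
          8 * e * a₆ * (4 * a₂ * a₆ - a₄ ^ 2)) =
        (8 * e * a₆ + a₄ - 6 * e⁻¹ ^ 2) * (3 + 4 * a₂ * e + 6 * a₄ * e ^ 2 + 12 * a₆ * e ^ 3 +
          (4 * a₂ * a₆ - a₄ ^ 2) * e ^ 4) := by
      field_simp
      ring
    rw [hrel, mul_zero] at key
    have h1 : e⁻¹ ^ 4 * e ^ 4 = 1 := by
      rw [← mul_pow, inv_mul_cancel₀ he, one_pow]
    linear_combination e⁻¹ ^ 4 * key + (-4 * (3 * e⁻¹) * a₄ * a₆ - 48 * a₆ ^ 2 + a₄ ^ 3 -
          4 * a₂ * a₄ * a₆ - 8 * e * a₆ * (4 * a₂ * a₆ - a₄ ^ 2)) * h1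
  · simp only [variableChange_a₁, variableChange_a₂, variableChange_a₃, variableChange_a₄,
      variableChange_a₆, velu3, mod3, Units.val_mk0, inv_one, Units.val_one,
      WeierstrassCurve.b₂, WeierstrassCurve.b₄, WeierstrassCurve.b₆, Units.val_inv_eq_inv_val]
    have key : (((a₆ + e⁻¹ * a₄ + e⁻¹ ^ 2 * a₂ + e⁻¹ ^ 3) -
          (4 * (a₂ + 3 * e⁻¹)) * (2 * (a₄ + 2 * a₂ * e⁻¹ + 3 * e⁻¹ ^ 2)) -
          28 * (a₆ + e⁻¹ * a₄ + e⁻¹ ^ 2 * a₂ + e⁻¹ ^ 3)) +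
        (-(3 * e⁻¹) + 2 * a₄ * e + 4 * a₆ * e ^ 2) *
          (-9 * (a₄ + 2 * a₂ * e⁻¹ + 3 * e⁻¹ ^ 2)) +
        (-(3 * e⁻¹) + 2 * a₄ * e + 4 * a₆ * e ^ 2) ^ 2 * (a₂ + 3 * e⁻¹) +
        (-(3 * e⁻¹) + 2 * a₄ * e + 4 * a₆ * e ^ 2) ^ 3) -
        e ^ 6 * (16 * a₆ ^ 3 + 8 * e * a₆ ^ 2 * (4 * a₂ * a₆ - a₄ ^ 2) +
          e ^ 2 * a₆ * (4 * a₂ * a₆ - a₄ ^ 2) ^ 2) =
        (-4 * e ^ 4 * a₂ * a₆ ^ 2 + e ^ 4 * a₄ ^ 2 * a₆ + 4 * e ^ 3 * a₆ ^ 2 +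
          6 * e ^ 2 * a₄ * a₆ + 4 * e * a₂ * a₆ - 9 * a₆ - 8 * e⁻¹ * a₄ - 4 * e⁻¹ ^ 2 * a₂ -
          6 * e⁻¹ ^ 3) * (3 + 4 * a₂ * e + 6 * a₄ * e ^ 2 + 12 * a₆ * e ^ 3 +
          (4 * a₂ * a₆ - a₄ ^ 2) * e ^ 4) := by
      field_simp
      ring
    rw [hrel, mul_zero] at key
    have h1 : e⁻¹ ^ 6 * e ^ 6 = 1 := by
      rw [← mul_pow, inv_mul_cancel₀ he, one_pow]
    linear_combination e⁻¹ ^ 6 * key + (16 * a₆ ^ 3 +
      8 * e * a₆ ^ 2 * (4 * a₂ * a₆ - a₄ ^ 2) +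
          e ^ 2 * a₆ * (4 * a₂ * a₆ - a₄ ^ 2) ^ 2) * h1

/-- In characteristic 3 the reduction of `mod3` is the Frobenius twist. -/
theorem mod3_frob {κ : Type*} [Field κ] [CharP κ 3] (W : WeierstrassCurve κ) (h1 : W.a₁ = 0)
    (h3 : W.a₃ = 0) :
    mod3 W.a₂ W.a₄ W.a₆ 0 (-4 * W.a₂) = W.map (frobenius κ 3) := by
  have h : (3 : κ) = 0 := by
    have := CharP.cast_eq_zero κ 3
    exact_mod_cast this
  ext
  · simp [mod3, WeierstrassCurve.map, frobenius_def, h1]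
  · simp only [mod3, WeierstrassCurve.map, frobenius_def]
    linear_combination (5 * W.a₂ ^ 3 - 8 * W.a₂ * W.a₄ + 12 * W.a₆) * h
  · simp [mod3, WeierstrassCurve.map, frobenius_def, h3]
  · simp only [mod3, WeierstrassCurve.map, frobenius_def]
    linear_combination (4 * W.a₂ * W.a₄ * W.a₆ - 16 * W.a₆ ^ 2) * h
  · simp only [mod3, WeierstrassCurve.map, frobenius_def]
    linear_combination (5 * W.a₆ ^ 3) * h

theorem mod3_card {κ : Type*} [Field κ] [Finite κ] [CharP κ 3] (W : WeierstrassCurve κ)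
    (h1 : W.a₁ = 0) (h3 : W.a₃ = 0) :
    Nat.card (mod3 W.a₂ W.a₄ W.a₆ 0 (-4 * W.a₂)).toAffine.Point =
      Nat.card W.toAffine.Point := by
  rw [mod3_frob W h1 h3]
  have h := card_point_map_equiv W (frobeniusEquiv κ 3)
  rw [← h]
  rfl

theorem mod3_Δ {κ : Type*} [Field κ] [CharP κ 3] (W : WeierstrassCurve κ)
    (h1 : W.a₁ = 0) (h3 : W.a₃ = 0) :
    (mod3 W.a₂ W.a₄ W.a₆ 0 (-4 * W.a₂)).Δ = W.Δ ^ 3 := by
  rw [mod3_frob W h1 h3, map_Δ, frobenius_def]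

theorem caseB3 {R : Type*} [CommRing R] [IsLocalRing R] [Finite (IsLocalRing.ResidueField R)]
    {K : Type*} [Field K] [Algebra R K] (hinj : Function.Injective (algebraMap R K))
    (W₀ : WeierstrassCurve R) (hΔ : IsUnit W₀.Δ) (h1 : W₀.a₁ = 0) (h3 : W₀.a₃ = 0)
    (hm : (3 : R) ∈ IsLocalRing.maximalIdeal R) (e : R)
    (he : e ∈ IsLocalRing.maximalIdeal R) (he0 : e ≠ 0)
    (hrel : 3 + 4 * W₀.a₂ * e + 6 * W₀.a₄ * e ^ 2 + 12 * W₀.a₆ * e ^ 3 +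
      (4 * W₀.a₂ * W₀.a₆ - W₀.a₄ ^ 2) * e ^ 4 = 0) :
    ∃ (C : VariableChange K) (W₁ : WeierstrassCurve R),
      C • velu3 ((⟨1, (algebraMap R K e)⁻¹, 0, 0⟩ : VariableChange K) •
        W₀.map (algebraMap R K)) = W₁.map (algebraMap R K) ∧ IsUnit W₁.Δ ∧
      Nat.card (W₁.map (IsLocalRing.residue R)).toAffine.Point =
        Nat.card (W₀.map (IsLocalRing.residue R)).toAffine.Point := by
  set κ := IsLocalRing.ResidueField R
  have h3' : (3 : κ) = 0 := by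
    have h3 := (IsLocalRing.residue_eq_zero_iff (3 : R)).2 hm
    rwa [map_ofNat] at h3
  have : CharP κ 3 := by
    have hp : Nat.Prime 3 := Nat.prime_three
    exact (CharP.charP_iff_prime_eq_zero hp).2 (by exact_mod_cast h3')
  have hK0 : algebraMap R K e ≠ 0 := fun h => he0 (hinj (by rw [h, map_zero]))
  set h : R := -(4 * W₀.a₂ + 6 * W₀.a₄ * e + 12 * W₀.a₆ * e ^ 2 +
    (4 * W₀.a₂ * W₀.a₆ - W₀.a₄ ^ 2) * e ^ 3) with hh
  have hhe : h * e = 3 := by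
    rw [hh]
    linear_combination -hrel
  have hhK : algebraMap R K h = 3 * (algebraMap R K e)⁻¹ := by
    have h4 := congrArg (algebraMap R K) hhe
    rw [map_mul, map_ofNat] at h4
    rw [← h4, mul_assoc, mul_inv_cancel₀ hK0, mul_one]
  have he' : IsLocalRing.residue R e = 0 := (IsLocalRing.residue_eq_zero_iff e).2 he
  have hh' : IsLocalRing.residue R h = -4 * (W₀.map (IsLocalRing.residue R)).a₂ := by
    rw [hh]
    simp only [map_neg, map_add, map_mul, map_sub, map_pow, map_ofNat, he', WeierstrassCurve.map_a₂]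
    ring
  have hred : (mod3 W₀.a₂ W₀.a₄ W₀.a₆ e h).map (IsLocalRing.residue R) =
      mod3 (W₀.map (IsLocalRing.residue R)).a₂
        (W₀.map (IsLocalRing.residue R)).a₄ (W₀.map (IsLocalRing.residue R)).a₆ 0
        (-4 * (W₀.map (IsLocalRing.residue R)).a₂) := by
    rw [mod3_map, he', hh']
    rfl
  have h1' : (W₀.map (IsLocalRing.residue R)).a₁ = 0 := by simp [h1]
  have h3'' : (W₀.map (IsLocalRing.residue R)).a₃ = 0 := by simp [h3]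
  refine ⟨⟨Units.mk0 (algebraMap R K e) hK0, -(3 * (algebraMap R K e)⁻¹) +
      2 * algebraMap R K W₀.a₄ * algebraMap R K e +
      4 * algebraMap R K W₀.a₆ * algebraMap R K e ^ 2, 0, 0⟩,
    mod3 W₀.a₂ W₀.a₄ W₀.a₆ e h, ?_, ?_, ?_⟩
  · have h4 := congrArg (algebraMap R K) hrel
    simp only [map_add, map_mul, map_sub, map_pow, map_ofNat, map_zero] at h4
    have h5 := mod3_change (algebraMap R K W₀.a₂) (algebraMap R K W₀.a₄) (algebraMap R K W₀.a₆)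
      (algebraMap R K e) hK0 h4
    have h6 : W₀.map (algebraMap R K) =
        ⟨0, algebraMap R K W₀.a₂, 0, algebraMap R K W₀.a₄, algebraMap R K W₀.a₆⟩ := by
      ext <;> simp [h1, h3]
    rw [h6, mod3_map, hhK]
    exact h5
  · apply IsLocalRing.residue_ne_zero_iff_isUnit _ |>.1
    have h4 : IsLocalRing.residue R (mod3 W₀.a₂ W₀.a₄ W₀.a₆ e h).Δ =
        (W₀.map (IsLocalRing.residue R)).Δ ^ 3 := by
      rw [← map_Δ, hred, mod3_Δ _ h1' h3'']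
    rw [h4, map_Δ]
    exact pow_ne_zero 3 (hΔ.map (IsLocalRing.residue R)).ne_zero
  · rw [hred, mod3_card _ h1' h3'']

end Pool.Agent.Lib.MP_1a91b9_nuI
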