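import Pool.Agent.Lib.MP_1a91b9_nuI.Cub
import Pool.Agent.Lib.MP_1a91b9_nt.VarChange

/-!
# Points of the 3-isogenous curves over a finite field of characteristic `≠ 2, 3`
-/

set_option autoImplicit false

namespace Pool.Agent.Lib.MP_1a91b9_nuI

open WeierstrassCurve

private theorem CntO3_char {κ : Type*} [Field κ] (h2 : (2 : κ) ≠ 0) : ringChar κ ≠ 2 := by
  intro h
  apply h2
  have h1 := ringChar.Nat.cast_ringChar (R := κ)
  rw [h] at h1
  exact_mod_cast h1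

/-- the number of points -/
private theorem CntO3_card {κ : Type*} [Field κ] [Fintype κ] [DecidableEq κ] (h2 : (2 : κ) ≠ 0)
    (a b c : κ) (hΔ : (E3 a b c).Δ ≠ 0) :
    (Nat.card (E3 a b c).toAffine.Point : ℤ) = 1 + ∑ x : κ,
      (quadraticChar κ (x ^ 3 + a * x ^ 2 + b * x + c) + 1) := by
  have hell : (E3 a b c).IsElliptic := ⟨isUnit_iff_ne_zero.2 hΔ⟩
  have hequiv : {p : κ × κ // (E3 a b c).toAffine.Nonsingular p.1 p.2} ≃
      {p : κ × κ // p.2 ^ 2 = p.1 ^ 3 + a * p.1 ^ 2 + b * p.1 + c} :=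
    Equiv.subtypeEquivRight fun p => by
      rw [← Affine.equation_iff_nonsingular, Affine.equation_iff']
      have e : p.2 ^ 2 + (E3 a b c).toAffine.a₁ * p.1 * p.2 + (E3 a b c).toAffine.a₃ * p.2 -
          (p.1 ^ 3 + (E3 a b c).toAffine.a₂ * p.1 ^ 2 + (E3 a b c).toAffine.a₄ * p.1 +
            (E3 a b c).toAffine.a₆) = p.2 ^ 2 - (p.1 ^ 3 + a * p.1 ^ 2 + b * p.1 + c) := by
        show p.2 ^ 2 + 0 * p.1 * p.2 + 0 * p.2 - (p.1 ^ 3 + a * p.1 ^ 2 + b * p.1 + c) = _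
        ring
      rw [e, sub_eq_zero]
  rw [Nat.card_congr (MP_1a91b9_nt.pointEquivOption (E3 a b c)), Finite.card_option,
    Nat.card_congr hequiv, Nat.card_eq_fintype_card, Fintype.card_subtype]
  rw [Finset.card_eq_sum_card_fiberwise (f := fun p : κ × κ => p.1) (t := Finset.univ)
    (by intro x _; simp)]
  push_cast
  rw [add_comm]
  congr 1
  refine Finset.sum_congr rfl fun X _ => ?_
  rw [← quadraticChar_card_sqrts (CntO3_char h2)]
  norm_cast
  refine Finset.card_bij' (fun p _ => p.2) (fun y _ => (X, y)) ?_ ?_ ?_ ?_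
  · rintro ⟨x, y⟩ hp
    simp only [Finset.mem_filter, Finset.mem_univ, true_and] at hp
    obtain ⟨h1, rfl⟩ := hp
    simpa using h1
  · intro y hy
    simp only [Set.mem_toFinset, Set.mem_ofPred_eq] at hy
    simp only [Finset.mem_filter, Finset.mem_univ, true_and]
    exact ⟨hy, trivial⟩
  · rintro ⟨x, y⟩ hp
    simp only [Finset.mem_filter, Finset.mem_univ, true_and] at hp
    rw [← hp.2]
  · intro y _
    rfl

/-- the twist -/
private theorem CntO3_twist {κ : Type*} [Field κ] [Fintype κ] [DecidableEq κ] (d : κ)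
    (hd : d ≠ 0) (hdn : ¬ IsSquare d) (a b c : κ) :
    ∑ x : κ, quadraticChar κ (x ^ 3 + d * a * x ^ 2 + d ^ 2 * b * x + d ^ 3 * c) =
      -∑ x : κ, quadraticChar κ (x ^ 3 + a * x ^ 2 + b * x + c) := by
  rw [← Finset.sum_neg_distrib]
  refine (Equiv.sum_comp (Equiv.mulLeft₀ d hd)
    (fun x => quadraticChar κ (x ^ 3 + d * a * x ^ 2 + d ^ 2 * b * x + d ^ 3 * c))).symm.trans ?_
  refine Finset.sum_congr rfl fun x _ => ?_
  have e1 : (Equiv.mulLeft₀ d hd x) ^ 3 + d * a * (Equiv.mulLeft₀ d hd x) ^ 2 +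
      d ^ 2 * b * (Equiv.mulLeft₀ d hd x) + d ^ 3 * c =
      d ^ 2 * (d * (x ^ 3 + a * x ^ 2 + b * x + c)) := by
    simp only [Equiv.mulLeft₀_apply]
    ring
  rw [e1, map_mul, quadraticChar_sq_one' hd, one_mul, map_mul,
    quadraticChar_neg_one_iff_not_isSquare.2 hdn, neg_one_mul]

/-- the roots `x` of `x³ - X x² + 2 b x + 4 c` -/
private theorem CntO3_root {κ : Type*} [Field κ] [Fintype κ] [DecidableEq κ]
    (h2 : (2 : κ) ≠ 0) (a b c : κ) (h : 4 * a * c = b ^ 2) (hc : c ≠ 0) (X x : κ)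
    (hx : x ^ 3 - X * x ^ 2 + 2 * b * x + 4 * c = 0)
    (hX : X ^ 3 + a * X ^ 2 + (-9 * b) * X + (-27 * c - 8 * a * b) ≠ 0) :
    quadraticChar κ (x ^ 3 + a * x ^ 2 + b * x + c) =
      quadraticChar κ (X ^ 3 + a * X ^ 2 + (-9 * b) * X + (-27 * c - 8 * a * b)) := by
  have h4 : (4 : κ) ≠ 0 := by
    have : (4 : κ) = 2 ^ 2 := by norm_num
    rw [this]
    exact pow_ne_zero _ h2
  have hx0 : x ≠ 0 := by
    rintro rfl
    apply mul_ne_zero h4 hc
    linear_combination hx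
  have e : (x ^ 3) ^ 2 * (X ^ 3 + a * X ^ 2 + (-9 * b) * X + (-27 * c - 8 * a * b)) =
      (x ^ 3 - 2 * b * x - 8 * c) ^ 2 * (x ^ 3 + a * x ^ 2 + b * x + c) := by
    have ha : a = b ^ 2 / (4 * c) := by
      rw [eq_div_iff (mul_ne_zero h4 hc)]
      linear_combination h
    have hXe : X = (x ^ 3 + 2 * b * x + 4 * c) / x ^ 2 := by
      rw [eq_div_iff (pow_ne_zero 2 hx0)]
      linear_combination -hx
    rw [ha, hXe]
    field_simp
    ring
  have hu : x ^ 3 - 2 * b * x - 8 * c ≠ 0 := by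
    intro h0
    rw [h0] at e
    have h5 : (x ^ 3) ^ 2 * (X ^ 3 + a * X ^ 2 + (-9 * b) * X + (-27 * c - 8 * a * b)) = 0 := by
      rw [e]
      ring
    exact mul_ne_zero (pow_ne_zero _ (pow_ne_zero _ hx0)) hX h5
  have h6 := congrArg (quadraticChar κ) e
  rw [map_mul, map_mul, quadraticChar_sq_one' (pow_ne_zero _ hx0), quadraticChar_sq_one' hu,
    one_mul, one_mul] at h6
  exact h6.symm

/-- the sum over one fibre -/
private theorem CntO3_fibre {κ : Type*} [Field κ] [Fintype κ] [DecidableEq κ]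
    (h2 : (2 : κ) ≠ 0) (h3 : (3 : κ) ≠ 0) (a b c : κ) (h : 4 * a * c = b ^ 2) (hc : c ≠ 0)
    (hd : b ^ 3 - 54 * c ^ 2 ≠ 0) (hns : ¬ IsSquare c) (X : κ) (S : Finset κ)
    (hS : ∀ x, x ∈ S ↔ x ^ 3 - X * x ^ 2 + 2 * b * x + 4 * c = 0) :
    ∑ x ∈ S, (quadraticChar κ (x ^ 3 + a * x ^ 2 + b * x + c) + 1) =
      quadraticChar κ (X ^ 3 + a * X ^ 2 + (-9 * b) * X + (-27 * c - 8 * a * b)) + 1 := by
  have h4 : (4 : κ) ≠ 0 := by
    have : (4 : κ) = 2 ^ 2 := by norm_num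
    rw [this]
    exact pow_ne_zero _ h2
  -- the discriminant
  have hdisc : 16 * c * (X ^ 3 + a * X ^ 2 + (-9 * b) * X + (-27 * c - 8 * a * b)) =
      (-X) ^ 2 * (2 * b) ^ 2 - 4 * (2 * b) ^ 3 - 4 * (-X) ^ 3 * (4 * c) - 27 * (4 * c) ^ 2 +
        18 * (-X) * (2 * b) * (4 * c) := by
    linear_combination (4 * X ^ 2 - 32 * b) * h
  by_cases hX : X ^ 3 + a * X ^ 2 + (-9 * b) * X + (-27 * c - 8 * a * b) = 0
  · -- the case of a double root
    rw [hX, quadraticChar_zero, zero_add]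
    have hD0 : 4 * b ^ 2 * X ^ 2 - 32 * b ^ 3 + 16 * c * X ^ 3 - 432 * c ^ 2 - 144 * b * c * X = 0 := by
      rw [hX, mul_zero] at hdisc
      linear_combination -hdisc
    have hDD : X ^ 2 - 6 * b ≠ 0 := by
      intro h0
      have h5 : 8 * (b ^ 3 + 6 * b * c * X + 54 * c ^ 2) = 0 := by
        linear_combination -hD0 + (4 * b ^ 2 + 16 * c * X) * h0
      have h8 : (8 : κ) ≠ 0 := by
        have : (8 : κ) = 2 ^ 3 := by norm_num
        rw [this]
        exact pow_ne_zero _ h2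
      have h6 := (mul_eq_zero.1 h5).resolve_left h8
      have h7 : (b ^ 3 - 54 * c ^ 2) ^ 2 = 0 := by
        linear_combination (b ^ 3 + 54 * c ^ 2 - 6 * b * c * X) * h6 + 36 * b ^ 2 * c ^ 2 * h0
      exact hd (pow_eq_zero_iff (two_ne_zero)|>.1 h7)
    obtain ⟨x₁, hx₁⟩ : ∃ x₁ : κ, x₁ * (X ^ 2 - 6 * b) = 18 * c + b * X :=
      ⟨(18 * c + b * X) / (X ^ 2 - 6 * b), div_mul_cancel₀ _ hDD⟩
    obtain ⟨x₃, hx₃⟩ : ∃ x₃ : κ, x₃ = X - 2 * x₁ := ⟨_, rfl⟩
    have hα : 2 * b = x₁ ^ 2 + 2 * x₁ * x₃ := by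
      have h5 : (4 * (X ^ 2 - 6 * b) ^ 2) * (3 * x₁ ^ 2 - 2 * X * x₁ + 2 * b) = 0 := by
        linear_combination (4 * (3 * (x₁ * (X ^ 2 - 6 * b) + (18 * c + b * X)) -
          2 * X * (X ^ 2 - 6 * b))) * hx₁ + (-9) * hD0
      have h6 := (mul_eq_zero.1 h5).resolve_left (mul_ne_zero h4 (pow_ne_zero _ hDD))
      rw [hx₃]
      linear_combination h6
    have hβ : 4 * c = -(x₁ ^ 2 * x₃) := by
      have h5 : (4 * (X ^ 2 - 6 * b) ^ 3) * (x₁ ^ 2 * (X - 2 * x₁) + 4 * c) = 0 := by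
        linear_combination (4 * ((x₁ * (X ^ 2 - 6 * b) + (18 * c + b * X)) * X * (X ^ 2 - 6 * b) -
          2 * ((x₁ * (X ^ 2 - 6 * b)) ^ 2 + x₁ * (X ^ 2 - 6 * b) * (18 * c + b * X) +
            (18 * c + b * X) ^ 2))) * hx₁ + (X ^ 3 + 108 * c) * hD0
      have h6 := (mul_eq_zero.1 h5).resolve_left (mul_ne_zero h4 (pow_ne_zero _ hDD))
      rw [hx₃]
      linear_combination h6
    have hX' : X = 2 * x₁ + x₃ := by
      rw [hx₃]
      ring
    have hne : x₁ ≠ x₃ := by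
      intro h5
      apply hDD
      rw [hX', ← h5]
      rw [← h5] at hα
      linear_combination (-3) * hα
    have hprod : x₁ ^ 2 * x₃ ≠ 0 := by
      intro h5
      rw [h5, neg_zero] at hβ
      exact mul_ne_zero h4 hc hβ
    have hx₁0 : x₁ ≠ 0 := by
      rintro rfl
      apply hprod
      ring
    have hx₃0 : x₃ ≠ 0 := by
      rintro rfl
      apply hprod
      ring
    have hSe : S = {x₁, x₃} := by
      ext x
      rw [hS, Finset.mem_insert, Finset.mem_singleton]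
      have e : x ^ 3 - X * x ^ 2 + 2 * b * x + 4 * c = (x - x₁) ^ 2 * (x - x₃) := by
        rw [hX']
        linear_combination x * hα + hβ
      rw [e, mul_eq_zero, pow_eq_zero_iff two_ne_zero, sub_eq_zero, sub_eq_zero]
    have hf3 : x₃ ^ 3 + a * x₃ ^ 2 + b * x₃ + c = 0 := by
      have h5 : (4 * c) * (x₃ ^ 3 + a * x₃ ^ 2 + b * x₃ + c) = 0 := by
        have h6 : 4 * ((4 * c) * (x₃ ^ 3 + a * x₃ ^ 2 + b * x₃ + c)) = 0 := by
          have h7 : 4 * ((4 * c) * (x₃ ^ 3 + a * x₃ ^ 2 + b * x₃ + c)) =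
              4 * (4 * c) * x₃ ^ 3 + 4 * (4 * a * c) * x₃ ^ 2 + 2 * (4 * c) * (2 * b) * x₃ +
                (4 * c) ^ 2 := by ring
          have h8 : 4 * (4 * a * c) = (2 * b) ^ 2 := by rw [h]; ring
          rw [h7, h8, hα, hβ]
          ring
        exact (mul_eq_zero.1 h6).resolve_left h4
      exact (mul_eq_zero.1 h5).resolve_left (mul_ne_zero h4 hc)
    have hf1 : x₃ ^ 2 * (x₁ ^ 3 + a * x₁ ^ 2 + b * x₁ + c) = (x₁ - x₃) ^ 2 * c := by
      have h5 : (4 * (4 * c)) * (x₃ ^ 2 * (x₁ ^ 3 + a * x₁ ^ 2 + b * x₁ + c)) =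
          (4 * (4 * c)) * ((x₁ - x₃) ^ 2 * c) := by
        have h7 : (4 * (4 * c)) * (x₃ ^ 2 * (x₁ ^ 3 + a * x₁ ^ 2 + b * x₁ + c)) =
            x₃ ^ 2 * (4 * (4 * c) * x₁ ^ 3 + 4 * (4 * a * c) * x₁ ^ 2 +
              2 * (4 * c) * (2 * b) * x₁ + (4 * c) ^ 2) := by ring
        have h8 : 4 * (4 * a * c) = (2 * b) ^ 2 := by rw [h]; ring
        have h9 : (4 * (4 * c)) * ((x₁ - x₃) ^ 2 * c) = (4 * c) ^ 2 * (x₁ - x₃) ^ 2 := by ring
        rw [h7, h8, h9, hα, hβ]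
        ring
      exact mul_left_cancel₀ (mul_ne_zero h4 (mul_ne_zero h4 hc)) h5
    have hchi := congrArg (quadraticChar κ) hf1
    rw [map_mul, map_mul, quadraticChar_sq_one' hx₃0, quadraticChar_sq_one' (sub_ne_zero.2 hne),
      one_mul, one_mul, quadraticChar_neg_one_iff_not_isSquare.2 hns] at hchi
    rw [hSe, Finset.sum_pair hne, hf3, quadraticChar_zero, hchi]
    norm_num
  · have hterm : ∀ x ∈ S, quadraticChar κ (x ^ 3 + a * x ^ 2 + b * x + c) + 1 =
        quadraticChar κ (X ^ 3 + a * X ^ 2 + (-9 * b) * X + (-27 * c - 8 * a * b)) + 1 := by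
      intro x hx
      rw [CntO3_root h2 a b c h hc X x ((hS x).1 hx) hX]
    rw [Finset.sum_congr rfl hterm]
    by_cases hsq : IsSquare (X ^ 3 + a * X ^ 2 + (-9 * b) * X + (-27 * c - 8 * a * b))
    · -- exactly one root
      have hnd : ¬ IsSquare ((-X) ^ 2 * (2 * b) ^ 2 - 4 * (2 * b) ^ 3 - 4 * (-X) ^ 3 * (4 * c) -
          27 * (4 * c) ^ 2 + 18 * (-X) * (2 * b) * (4 * c)) := by
        rw [← hdisc]
        have e : 16 * c * (X ^ 3 + a * X ^ 2 + (-9 * b) * X + (-27 * c - 8 * a * b)) =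
            4 ^ 2 * (c * (X ^ 3 + a * X ^ 2 + (-9 * b) * X + (-27 * c - 8 * a * b))) := by ring
        rw [e, ← quadraticChar_neg_one_iff_not_isSquare, map_mul, map_mul,
          quadraticChar_sq_one' h4, (quadraticChar_one_iff_isSquare hX).2 hsq,
          quadraticChar_neg_one_iff_not_isSquare.2 hns]
        norm_num
      obtain ⟨x₀, hx₀, huniq⟩ := cubic_root h2 (-X) (2 * b) (4 * c) hnd
      have hSe : S = {x₀} := by
        ext x
        rw [hS, Finset.mem_singleton]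
        constructor
        · intro h5
          exact huniq x (by linear_combination h5)
        · rintro rfl
          linear_combination hx₀
      rw [hSe, Finset.sum_singleton]
    · rw [quadraticChar_neg_one_iff_not_isSquare.2 hsq]
      simp

/-- the case of a nonsquare `c` -/
private theorem CntO3_step2 {κ : Type*} [Field κ] [Fintype κ] [DecidableEq κ]
    (h2 : (2 : κ) ≠ 0) (h3 : (3 : κ) ≠ 0) (a b c : κ) (h : 4 * a * c = b ^ 2) (hc : c ≠ 0)
    (hd : b ^ 3 - 54 * c ^ 2 ≠ 0) (hns : ¬ IsSquare c) :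
    ∑ x : κ, quadraticChar κ (x ^ 3 + a * x ^ 2 + b * x + c) =
      ∑ x : κ, quadraticChar κ (x ^ 3 + a * x ^ 2 + (-9 * b) * x + (-27 * c - 8 * a * b)) := by
  have h4 : (4 : κ) ≠ 0 := by
    have : (4 : κ) = 2 ^ 2 := by norm_num
    rw [this]
    exact pow_ne_zero _ h2
  have key : ∑ x : κ, (quadraticChar κ (x ^ 3 + a * x ^ 2 + b * x + c) + 1) =
      ∑ x : κ, (quadraticChar κ (x ^ 3 + a * x ^ 2 + (-9 * b) * x +
        (-27 * c - 8 * a * b)) + 1) := by
    rw [← Finset.add_sum_erase Finset.univ (fun x : κ =>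
      (quadraticChar κ (x ^ 3 + a * x ^ 2 + b * x + c) + 1)) (Finset.mem_univ 0)]
    have e0 : quadraticChar κ ((0 : κ) ^ 3 + a * 0 ^ 2 + b * 0 + c) + 1 = 0 := by
      have e1 : (0 : κ) ^ 3 + a * 0 ^ 2 + b * 0 + c = c := by ring
      rw [e1, quadraticChar_neg_one_iff_not_isSquare.2 hns]
      norm_num
    rw [e0, zero_add, ← Finset.sum_fiberwise (Finset.univ.erase 0)
      (fun x : κ => x + 2 * b / x + 4 * c / x ^ 2)]
    refine Finset.sum_congr rfl fun X _ => ?_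
    refine CntO3_fibre h2 h3 a b c h hc hd hns X _ fun x => ?_
    rw [Finset.mem_filter, Finset.mem_erase]
    constructor
    · rintro ⟨⟨hx0, -⟩, hx⟩
      rw [← hx]
      field_simp
      ring
    · intro hx
      have hx0 : x ≠ 0 := by
        rintro rfl
        apply mul_ne_zero h4 hc
        linear_combination hx
      refine ⟨⟨hx0, Finset.mem_univ _⟩, ?_⟩
      field_simp
      linear_combination hx
  rw [Finset.sum_add_distrib, Finset.sum_add_distrib] at key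
  exact add_right_cancel key

theorem card_E3 {κ : Type*} [Field κ] [Finite κ] (h2 : (2 : κ) ≠ 0) (h3 : (3 : κ) ≠ 0)
    (a b c : κ) (h : 4 * a * c = b ^ 2) (hc : c ≠ 0) (hd : b ^ 3 - 54 * c ^ 2 ≠ 0) :
    Nat.card (E3 a (-9 * b) (-27 * c - 8 * a * b)).toAffine.Point =
      Nat.card (E3 a b c).toAffine.Point := by
  classical
  have hfin : Fintype κ := Fintype.ofFinite κ
  have h4 : (4 : κ) ≠ 0 := by
    have : (4 : κ) = 2 ^ 2 := by norm_num
    rw [this]
    exact pow_ne_zero _ h2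
  have h8 : (8 : κ) ≠ 0 := by
    have : (8 : κ) = 2 ^ 3 := by norm_num
    rw [this]
    exact pow_ne_zero _ h2
  have hΔ1 : (E3 a b c).Δ ≠ 0 := by
    rw [E3_Δ a b c h]
    exact mul_ne_zero h8 hd
  have hΔ2 : (E3 a (-9 * b) (-27 * c - 8 * a * b)).Δ ≠ 0 := by
    intro h0
    have e : c ^ 4 * (E3 a (-9 * b) (-27 * c - 8 * a * b)).Δ = 2 * (b ^ 3 - 54 * c ^ 2) ^ 3 := by
      have ha : a = b ^ 2 / (4 * c) := by
        rw [eq_div_iff (mul_ne_zero h4 hc)]
        linear_combination h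
      rw [ha]
      simp only [E3, WeierstrassCurve.Δ, WeierstrassCurve.b₂, WeierstrassCurve.b₄,
        WeierstrassCurve.b₆, WeierstrassCurve.b₈]
      field_simp
      ring
    rw [h0, mul_zero] at e
    exact mul_ne_zero h2 (pow_ne_zero 3 hd) e.symm
  have e1 := CntO3_card h2 a b c hΔ1
  have e2 := CntO3_card h2 a (-9 * b) (-27 * c - 8 * a * b) hΔ2
  have key : ∑ x : κ, quadraticChar κ (x ^ 3 + a * x ^ 2 + (-9 * b) * x + (-27 * c - 8 * a * b)) =
      ∑ x : κ, quadraticChar κ (x ^ 3 + a * x ^ 2 + b * x + c) := by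
    by_cases hs : IsSquare c
    · obtain ⟨d, hd0, hdn⟩ : ∃ d : κ, d ≠ 0 ∧ ¬ IsSquare d := by
        obtain ⟨d, hd⟩ := FiniteField.exists_nonsquare (F := κ) (CntO3_char h2)
        refine ⟨d, ?_, hd⟩
        rintro rfl
        exact hd IsSquare.zero
      have hns : ¬ IsSquare (d ^ 3 * c) := by
        rw [← quadraticChar_neg_one_iff_not_isSquare, map_mul, map_pow,
          quadraticChar_neg_one_iff_not_isSquare.2 hdn, (quadraticChar_one_iff_isSquare hc).2 hs]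
        norm_num
      have h5 := CntO3_step2 h2 h3 (d * a) (d ^ 2 * b) (d ^ 3 * c) (by
        linear_combination d ^ 4 * h) (mul_ne_zero (pow_ne_zero _ hd0) hc) (by
        have e3 : (d ^ 2 * b) ^ 3 - 54 * (d ^ 3 * c) ^ 2 = d ^ 6 * (b ^ 3 - 54 * c ^ 2) := by ring
        rw [e3]
        exact mul_ne_zero (pow_ne_zero _ hd0) hd) hns
      rw [CntO3_twist d hd0 hdn a b c] at h5
      have e4 : ∑ x : κ, quadraticChar κ (x ^ 3 + d * a * x ^ 2 + (-9 * (d ^ 2 * b)) * x +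
          (-27 * (d ^ 3 * c) - 8 * (d * a) * (d ^ 2 * b))) =
          ∑ x : κ, quadraticChar κ (x ^ 3 + d * a * x ^ 2 + d ^ 2 * (-9 * b) * x +
            d ^ 3 * (-27 * c - 8 * a * b)) := by
        refine Finset.sum_congr rfl fun x _ => ?_
        congr 1
        ring
      rw [e4, CntO3_twist d hd0 hdn a (-9 * b) (-27 * c - 8 * a * b)] at h5
      exact neg_injective h5.symm
    · exact (CntO3_step2 h2 h3 a b c h hc hd hs).symm
  have e3 : (Nat.card (E3 a (-9 * b) (-27 * c - 8 * a * b)).toAffine.Point : ℤ) =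
      Nat.card (E3 a b c).toAffine.Point := by
    rw [e1, e2, Finset.sum_add_distrib, Finset.sum_add_distrib, key]
  exact_mod_cast e3

end Pool.Agent.Lib.MP_1a91b9_nuI
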