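import Pool.Agent.Lib.MP_1a91b9_nuI.CntO2
import Pool.Agent.Lib.MP_1a91b9_nt.VarChange

/-!
# Points of `form2` and `velu2` over a finite field
-/

set_option autoImplicit false

namespace Pool.Agent.Lib.MP_1a91b9_nuI

open WeierstrassCurve

private theorem CntV2_odd {κ : Type*} [Field κ] [Finite κ] (h2 : (2 : κ) ≠ 0) (a₁ a₂ a₄ : κ)
    (h4 : a₄ ≠ 0) (hd : (a₁ ^ 2 + 4 * a₂) ^ 2 - 64 * a₄ ≠ 0) :
    Nat.card (velu2 a₁ a₂ a₄).toAffine.Point = Nat.card (form2 a₁ a₂ a₄).toAffine.Point := by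
  have h40 : (4 : κ) ≠ 0 := by
    have h : (4 : κ) = 2 * 2 := by norm_num
    rw [h]
    exact mul_ne_zero h2 h2
  obtain ⟨s, hs⟩ : ∃ s : κ, 2 * s = -a₁ := ⟨-a₁ / 2, by field_simp⟩
  obtain ⟨B, hB⟩ : ∃ B : κ, B = a₂ + s ^ 2 := ⟨_, rfl⟩
  have h4B : 4 * B = a₁ ^ 2 + 4 * a₂ := by
    rw [hB]
    linear_combination (2 * s - a₁) * hs
  have h1 : (⟨1, 0, s, 0⟩ : VariableChange κ) • form2 a₁ a₂ a₄ = E2 B a₄ := by
    ext
    · rw [variableChange_a₁]
      simp only [form2, E2, inv_one, Units.val_one]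
      linear_combination hs
    · rw [variableChange_a₂]
      simp only [form2, E2, inv_one, Units.val_one]
      rw [hB]
      linear_combination (-s) * hs
    · rw [variableChange_a₃]
      simp only [form2, E2, inv_one, Units.val_one]
      ring
    · rw [variableChange_a₄]
      simp only [form2, E2, inv_one, Units.val_one]
      ring
    · rw [variableChange_a₆]
      simp only [form2, E2, inv_one, Units.val_one]
      ring
  have h3 : (⟨1, -B, 0, 0⟩ : VariableChange κ) • ((⟨1, 0, s, 0⟩ : VariableChange κ) •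
      velu2 a₁ a₂ a₄) = E2 (-2 * B) (B ^ 2 - 4 * a₄) := by
    have h5 : (⟨1, 0, s, 0⟩ : VariableChange κ) • velu2 a₁ a₂ a₄ =
        (⟨0, B, 0, -4 * a₄, -4 * B * a₄⟩ : WeierstrassCurve κ) := by
      ext
      · rw [variableChange_a₁]
        simp only [velu2, inv_one, Units.val_one]
        linear_combination hs
      · rw [variableChange_a₂]
        simp only [velu2, inv_one, Units.val_one]
        rw [hB]
        linear_combination (-s) * hs
      · rw [variableChange_a₃]
        simp only [velu2, inv_one, Units.val_one]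
        ring
      · rw [variableChange_a₄]
        simp only [velu2, inv_one, Units.val_one]
        ring
      · rw [variableChange_a₆]
        simp only [velu2, inv_one, Units.val_one]
        linear_combination a₄ * h4B
    rw [h5]
    ext
    · rw [variableChange_a₁]
      simp only [E2, inv_one, Units.val_one]
      ring
    · rw [variableChange_a₂]
      simp only [E2, inv_one, Units.val_one]
      ring
    · rw [variableChange_a₃]
      simp only [E2, inv_one, Units.val_one]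
      ring
    · rw [variableChange_a₄]
      simp only [E2, inv_one, Units.val_one]
      ring
    · rw [variableChange_a₆]
      simp only [E2, inv_one, Units.val_one]
      ring
  have hdB : B ^ 2 - 4 * a₄ ≠ 0 := by
    intro h
    apply hd
    rw [← h4B]
    linear_combination 16 * h
  rw [← MP_1a91b9_nt.card_point_variableChange (velu2 a₁ a₂ a₄) ⟨1, 0, s, 0⟩,
    ← MP_1a91b9_nt.card_point_variableChange _ ⟨1, -B, 0, 0⟩, h3, card_E2 h2 B a₄ h4 hdB,
    ← MP_1a91b9_nt.card_point_variableChange (form2 a₁ a₂ a₄) ⟨1, 0, s, 0⟩, h1]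

private theorem CntV2_two {κ : Type*} [Field κ] [Finite κ] (h2 : (2 : κ) = 0) (a₁ a₂ a₄ : κ)
    (hd : (a₁ ^ 2 + 4 * a₂) ^ 2 - 64 * a₄ ≠ 0) :
    Nat.card (velu2 a₁ a₂ a₄).toAffine.Point = Nat.card (form2 a₁ a₂ a₄).toAffine.Point := by
  have ha : a₁ ≠ 0 := by
    rintro rfl
    apply hd
    linear_combination (8 * a₂ ^ 2 - 32 * a₄) * h2
  have hchar : CharP κ 2 := CharTwo.of_one_ne_zero_of_two_eq_zero one_ne_zero h2
  have hbij : Function.Bijective (frobenius κ 2) :=
    Finite.injective_iff_bijective.1 (frobenius κ 2).injective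
  have h1 : (velu2 a₁ a₂ a₄).map (RingEquiv.ofBijective (frobenius κ 2) hbij).toRingHom =
      (⟨(Units.mk0 a₁ ha)⁻¹, 0, a₂ / a₁, a₄ / a₁⟩ : VariableChange κ) • form2 a₁ a₂ a₄ := by
    have hf : ∀ x : κ, (RingEquiv.ofBijective (frobenius κ 2) hbij).toRingHom x = x ^ 2 :=
      fun x => rfl
    have hs : a₂ / a₁ * a₁ = a₂ := div_mul_cancel₀ _ ha
    have ht : a₄ / a₁ * a₁ = a₄ := div_mul_cancel₀ _ ha
    generalize hS : a₂ / a₁ = S at *
    generalize hT : a₄ / a₁ = T at *
    ext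
    · rw [variableChange_a₁, map_a₁, hf]
      simp only [velu2, form2, inv_inv, Units.val_mk0]
      linear_combination (-a₁ * S) * h2
    · rw [variableChange_a₂, map_a₂, hf]
      simp only [velu2, form2, inv_inv, Units.val_mk0]
      linear_combination (a₁ ^ 2 + (S * a₁ + a₂)) * hs + a₂ ^ 2 * h2
    · rw [variableChange_a₃, map_a₃, hf]
      simp only [velu2, form2, inv_inv, Units.val_mk0]
      linear_combination (-a₁ ^ 3 * T) * h2
    · rw [variableChange_a₄, map_a₄, hf]
      simp only [velu2, form2, inv_inv, Units.val_mk0]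
      linear_combination (8 * a₄ ^ 2 + a₁ ^ 4 * S * T) * h2 + a₁ ^ 4 * ht
    · rw [variableChange_a₆, map_a₆, hf]
      simp only [velu2, form2, inv_inv, Units.val_mk0]
      linear_combination (4 * a₁ ^ 2 * a₂ * a₄ ^ 2 + 8 * a₂ ^ 2 * a₄ ^ 2 + a₁ ^ 4 * a₄ ^ 2) * h2 +
        (a₁ ^ 4 * (T * a₁ + a₄)) * ht
  rw [← MP_1a91b9_nt.card_point_map_equiv (velu2 a₁ a₂ a₄)
    (RingEquiv.ofBijective (frobenius κ 2) hbij), h1, MP_1a91b9_nt.card_point_variableChange]

theorem card_velu2 {κ : Type*} [Field κ] [Finite κ] (a₁ a₂ a₄ : κ) (h4 : a₄ ≠ 0)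
    (hd : (a₁ ^ 2 + 4 * a₂) ^ 2 - 64 * a₄ ≠ 0) :
    Nat.card (velu2 a₁ a₂ a₄).toAffine.Point = Nat.card (form2 a₁ a₂ a₄).toAffine.Point := by
  by_cases h2 : (2 : κ) = 0
  · exact CntV2_two h2 a₁ a₂ a₄ hd
  · exact CntV2_odd h2 a₁ a₂ a₄ h4 hd

end Pool.Agent.Lib.MP_1a91b9_nuI
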