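import Pool.Agent.Lib.MP_1a91b9_nuI.CntO3

/-!
# Points of `W` and `velu3 W` over a finite field
-/

set_option autoImplicit false

namespace Pool.Agent.Lib.MP_1a91b9_nuI

open WeierstrassCurve

private theorem CntV3_odd {κ : Type*} [Field κ] [Finite κ] (W : WeierstrassCurve κ)
    (h8 : W.b₈ = 0) (hΔ : W.Δ ≠ 0) (h3 : (3 : κ) ≠ 0) (h2 : (2 : κ) ≠ 0) :
    Nat.card (velu3 W).toAffine.Point = Nat.card W.toAffine.Point := by
  have h40 : (4 : κ) ≠ 0 := by
    have h : (4 : κ) = 2 * 2 := by norm_num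
    rw [h]
    exact mul_ne_zero h2 h2
  obtain ⟨s, hs⟩ : ∃ s : κ, 2 * s = -W.a₁ := ⟨-W.a₁ / 2, by field_simp⟩
  obtain ⟨t, ht⟩ : ∃ t : κ, 2 * t = -W.a₃ := ⟨-W.a₃ / 2, by field_simp⟩
  obtain ⟨a, ha⟩ : ∃ a : κ, a = W.a₂ + s ^ 2 := ⟨_, rfl⟩
  obtain ⟨b, hb⟩ : ∃ b : κ, b = W.a₄ + 2 * s * t := ⟨_, rfl⟩
  obtain ⟨c, hc⟩ : ∃ c : κ, c = W.a₆ + t ^ 2 := ⟨_, rfl⟩
  have hb2 : W.b₂ = 4 * a := by
    rw [WeierstrassCurve.b₂, ha]
    linear_combination (W.a₁ - 2 * s) * hs
  have hb4 : W.b₄ = 2 * b := by
    rw [WeierstrassCurve.b₄, hb]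
    linear_combination W.a₃ * hs - 2 * s * ht
  have hb6 : W.b₆ = 4 * c := by
    rw [WeierstrassCurve.b₆, hc]
    linear_combination (W.a₃ - 2 * t) * ht
  have h1 : (⟨1, 0, s, t⟩ : VariableChange κ) • W = E3 a b c := by
    ext
    · rw [variableChange_a₁]
      simp only [E3, inv_one, Units.val_one]
      linear_combination hs
    · rw [variableChange_a₂]
      simp only [E3, inv_one, Units.val_one]
      rw [ha]
      linear_combination (-s) * hs
    · rw [variableChange_a₃]
      simp only [E3, inv_one, Units.val_one]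
      linear_combination ht
    · rw [variableChange_a₄]
      simp only [E3, inv_one, Units.val_one]
      rw [hb]
      linear_combination (-s) * ht + (-t) * hs
    · rw [variableChange_a₆]
      simp only [E3, inv_one, Units.val_one]
      rw [hc]
      linear_combination (-t) * ht
  have h5 : (⟨1, 0, s, t⟩ : VariableChange κ) • velu3 W = E3 a (-9 * b) (-27 * c - 8 * a * b) := by
    ext
    · rw [variableChange_a₁]
      simp only [velu3, E3, inv_one, Units.val_one]
      linear_combination hs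
    · rw [variableChange_a₂]
      simp only [velu3, E3, inv_one, Units.val_one]
      rw [ha]
      linear_combination (-s) * hs
    · rw [variableChange_a₃]
      simp only [velu3, E3, inv_one, Units.val_one]
      linear_combination ht
    · rw [variableChange_a₄]
      simp only [velu3, E3, inv_one, Units.val_one]
      linear_combination (-s) * ht + (-t) * hs - 5 * hb4 - hb
    · rw [variableChange_a₆]
      simp only [velu3, E3, inv_one, Units.val_one]
      linear_combination (-t) * ht - 7 * hb6 - W.b₄ * hb2 - 4 * a * hb4 - hc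
  have h6 := b4_sq W h8
  have h7 := Δ_of_b8 W h8
  rw [hb4, hb6] at h7
  rw [hb2, hb4, hb6] at h6
  have habc : 4 * a * c = b ^ 2 := mul_left_cancel₀ h40 (by linear_combination -h6)
  have hc0 : c ≠ 0 := by
    rintro h
    rw [h] at h6 h7
    have h9 : b ^ 2 = 0 := mul_left_cancel₀ h40 (by linear_combination h6)
    apply hΔ
    rw [h7]
    linear_combination 8 * b * h9
  have hd0 : b ^ 3 - 54 * c ^ 2 ≠ 0 := by
    intro h
    apply hΔ
    rw [h7]
    linear_combination 8 * h
  rw [← MP_1a91b9_nt.card_point_variableChange (velu3 W) ⟨1, 0, s, t⟩, h5,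
    card_E3 h2 h3 a b c habc hc0 hd0, ← h1, MP_1a91b9_nt.card_point_variableChange]

private theorem CntV3_cube {κ : Type*} [Field κ] [Finite κ] (h : ∀ w : κ, w ^ 2 + w + 1 ≠ 0) :
    Function.Bijective fun x : κ => x ^ 3 := by
  refine Finite.injective_iff_bijective.1 fun x y hxy => ?_
  by_contra hne
  have hxy' : x ^ 3 = y ^ 3 := hxy
  have hy : y ≠ 0 := by
    rintro rfl
    apply hne
    rw [zero_pow three_ne_zero] at hxy'
    exact (pow_eq_zero_iff three_ne_zero).1 hxy'
  have e : (x - y) * (x ^ 2 + x * y + y ^ 2) = 0 := by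
    linear_combination hxy'
  have e2 := (mul_eq_zero.1 e).resolve_left (sub_ne_zero.2 hne)
  apply h (x / y)
  field_simp
  linear_combination e2

private theorem CntV3_count {κ : Type*} [Field κ] [Finite κ] (h2 : (2 : κ) = 0)
    (h : Function.Bijective fun x : κ => x ^ 3) (a d : κ) (ha : a ≠ 0) :
    Nat.card (⟨0, 0, a, 0, d⟩ : WeierstrassCurve κ).toAffine.Point = Nat.card κ + 1 := by
  have hfin : Finite (⟨0, 0, a, 0, d⟩ : WeierstrassCurve κ).toAffine.Point :=
    Finite.of_equiv _ (MP_1a91b9_nt.pointEquivOption _).symm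
  have hns : ∀ x y : κ, (⟨0, 0, a, 0, d⟩ : WeierstrassCurve κ).toAffine.Nonsingular x y ↔
      x ^ 3 = y ^ 2 + a * y - d := by
    intro x y
    rw [Affine.nonsingular_iff', Affine.equation_iff']
    constructor
    · rintro ⟨h1, -⟩
      have h3 : y ^ 2 + 0 * x * y + a * y - (x ^ 3 + 0 * x ^ 2 + 0 * x + d) = 0 := h1
      linear_combination -h3
    · intro h1
      refine ⟨?_, Or.inr ?_⟩
      · show y ^ 2 + 0 * x * y + a * y - (x ^ 3 + 0 * x ^ 2 + 0 * x + d) = 0
        linear_combination -h1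
      · show 2 * y + 0 * x + a ≠ 0
        rw [h2, zero_mul, zero_mul, zero_add, zero_add]
        exact ha
  rw [Nat.card_congr (MP_1a91b9_nt.pointEquivOption _), Finite.card_option]
  congr 1
  refine Nat.card_congr ?_
  refine ⟨fun p => p.1.2, fun y => ⟨((Equiv.ofBijective _ h).symm (y ^ 2 + a * y - d), y), ?_⟩,
    ?_, ?_⟩
  · exact (hns _ _).2 ((Equiv.ofBijective _ h).apply_symm_apply (y ^ 2 + a * y - d))
  · rintro ⟨⟨x, y⟩, hp⟩
    have h1 : x ^ 3 = y ^ 2 + a * y - d := (hns x y).1 hp
    have h3 : (Equiv.ofBijective _ h).symm (y ^ 2 + a * y - d) = x := by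
      rw [Equiv.symm_apply_eq]
      exact h1.symm
    refine Subtype.ext (Prod.ext ?_ rfl)
    exact h3
  · intro y
    rfl

private theorem CntV3_two {κ : Type*} [Field κ] [Finite κ] (W : WeierstrassCurve κ)
    (h8 : W.b₈ = 0) (hΔ : W.Δ ≠ 0) (h2 : (2 : κ) = 0) (ha₁ : W.a₁ = 0) :
    Nat.card (velu3 W).toAffine.Point = Nat.card W.toAffine.Point := by
  have hb2 : W.b₂ = 0 := by
    rw [WeierstrassCurve.b₂, ha₁]
    linear_combination 2 * W.a₂ * h2
  have hb4 : W.b₄ = 0 := by
    rw [WeierstrassCurve.b₄, ha₁]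
    linear_combination W.a₄ * h2
  have hb6 : W.b₆ = W.a₃ ^ 2 := by
    rw [WeierstrassCurve.b₆]
    linear_combination 2 * W.a₆ * h2
  have ha3 : W.a₃ ≠ 0 := by
    intro h
    apply hΔ
    rw [Δ_of_b8 W h8, hb4, hb6, h]
    ring
  have h24 : W.a₂ * W.a₃ ^ 2 = W.a₄ ^ 2 := by
    rw [WeierstrassCurve.b₈, ha₁] at h8
    linear_combination h8 - 2 * W.a₂ * W.a₆ * h2
  have hv : velu3 W = ⟨0, W.a₂, W.a₃, W.a₄, W.a₆ + W.a₃ ^ 2⟩ := by
    ext
    · exact ha₁
    · rfl
    · rfl
    · simp only [velu3]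
      rw [hb4]
      ring
    · simp only [velu3]
      rw [hb4, hb6]
      linear_combination (-4 * W.a₃ ^ 2) * h2
  by_cases hw : ∃ w : κ, w ^ 2 + w + 1 = 0
  · obtain ⟨w, hw⟩ := hw
    have h1 : velu3 W = (⟨1, 0, 0, w * W.a₃⟩ : VariableChange κ) • W := by
      rw [hv]
      ext
      · rw [variableChange_a₁]
        simp only [inv_one, Units.val_one]
        rw [ha₁]
        ring
      · rw [variableChange_a₂]
        simp only [inv_one, Units.val_one]
        ring
      · rw [variableChange_a₃]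
        simp only [inv_one, Units.val_one]
        linear_combination (-w * W.a₃) * h2
      · rw [variableChange_a₄]
        simp only [inv_one, Units.val_one]
        rw [ha₁]
        ring
      · rw [variableChange_a₆]
        simp only [inv_one, Units.val_one]
        linear_combination W.a₃ ^ 2 * hw
    rw [h1, MP_1a91b9_nt.card_point_variableChange]
  · have hcube := CntV3_cube (κ := κ) fun w h => hw ⟨w, h⟩
    obtain ⟨s, hs⟩ : ∃ s : κ, s * W.a₃ = W.a₄ := ⟨W.a₄ / W.a₃, div_mul_cancel₀ _ ha3⟩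
    have ha2 : W.a₂ = s ^ 2 := by
      have h1 : W.a₃ ^ 2 * W.a₂ = W.a₃ ^ 2 * s ^ 2 := by
        linear_combination h24 - (s * W.a₃ + W.a₄) * hs
      exact mul_left_cancel₀ (pow_ne_zero 2 ha3) h1
    have h1 : (⟨1, 0, s, 0⟩ : VariableChange κ) • W = ⟨0, 0, W.a₃, 0, W.a₆⟩ := by
      ext
      · rw [variableChange_a₁]
        simp only [inv_one, Units.val_one]
        rw [ha₁]
        linear_combination s * h2
      · rw [variableChange_a₂]
        simp only [inv_one, Units.val_one]
        rw [ha₁, ha2]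
        ring
      · rw [variableChange_a₃]
        simp only [inv_one, Units.val_one]
        ring
      · rw [variableChange_a₄]
        simp only [inv_one, Units.val_one]
        linear_combination -hs
      · rw [variableChange_a₆]
        simp only [inv_one, Units.val_one]
        ring
    have h3 : (⟨1, 0, s, 0⟩ : VariableChange κ) • velu3 W =
        ⟨0, 0, W.a₃, 0, W.a₆ + W.a₃ ^ 2⟩ := by
      rw [hv]
      ext
      · rw [variableChange_a₁]
        simp only [inv_one, Units.val_one]
        linear_combination s * h2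
      · rw [variableChange_a₂]
        simp only [inv_one, Units.val_one]
        rw [ha2]
        ring
      · rw [variableChange_a₃]
        simp only [inv_one, Units.val_one]
        ring
      · rw [variableChange_a₄]
        simp only [inv_one, Units.val_one]
        linear_combination -hs
      · rw [variableChange_a₆]
        simp only [inv_one, Units.val_one]
        ring
    rw [← MP_1a91b9_nt.card_point_variableChange (velu3 W) ⟨1, 0, s, 0⟩, h3,
      ← MP_1a91b9_nt.card_point_variableChange W ⟨1, 0, s, 0⟩, h1,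
      CntV3_count h2 hcube _ _ ha3, CntV3_count h2 hcube _ _ ha3]

theorem card_velu3 {κ : Type*} [Field κ] [Finite κ] (W : WeierstrassCurve κ) (h8 : W.b₈ = 0)
    (hΔ : W.Δ ≠ 0) (h3 : (3 : κ) ≠ 0) (h2 : (2 : κ) = 0 → W.a₁ = 0) :
    Nat.card (velu3 W).toAffine.Point = Nat.card W.toAffine.Point := by
  by_cases h : (2 : κ) = 0
  · exact CntV3_two W h8 hΔ h (h2 h)
  · exact CntV3_odd W h8 hΔ h3 h

end Pool.Agent.Lib.MP_1a91b9_nuI
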