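import Pool.Agent.Lib.MP_1a91b9_nuI.Defs

/-!
# A cubic over a finite field whose discriminant is not a square has exactly one root
-/

set_option autoImplicit false

namespace Pool.Agent.Lib.MP_1a91b9_nuI

open Polynomial in
private theorem Cub_fixed {κ : Type*} [Field κ] [Fintype κ] {Ω : Type*} [Field Ω] [Algebra κ Ω]
    (x : Ω) (hx : x ^ Fintype.card κ = x) : ∃ y : κ, algebraMap κ Ω y = x := by
  classical
  by_contra hcon
  push Not at hcon
  have hq : 1 < Fintype.card κ := Fintype.one_lt_card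
  have hcard : (insert x (Finset.univ.image (algebraMap κ Ω)) : Finset Ω).card =
      Fintype.card κ + 1 := by
    rw [Finset.card_insert_of_notMem, Finset.card_image_of_injective _ (algebraMap κ Ω).injective,
      Finset.card_univ]
    intro h
    obtain ⟨y, _, hy⟩ := Finset.mem_image.1 h
    exact hcon y hy
  have hne : (X ^ Fintype.card κ - X : Polynomial Ω) ≠ 0 := FiniteField.X_pow_card_sub_X_ne_zero Ω hq
  have hle := Polynomial.card_le_degree_of_subset_roots (p := (X ^ Fintype.card κ - X : Polynomial Ω))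
    (Z := insert x (Finset.univ.image (algebraMap κ Ω))) (by
      intro z hz
      have hz' : z ∈ (insert x (Finset.univ.image (algebraMap κ Ω)) : Finset Ω) := hz
      have hzq : z ^ Fintype.card κ = z := by
        rcases Finset.mem_insert.1 hz' with h | h
        · rw [h]
          exact hx
        · obtain ⟨y, _, hy⟩ := Finset.mem_image.1 h
          rw [← hy, ← map_pow, FiniteField.pow_card]
      rw [Polynomial.mem_roots hne, Polynomial.IsRoot.def, Polynomial.eval_sub,
        Polynomial.eval_pow, Polynomial.eval_X, hzq, sub_self])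
  rw [FiniteField.X_pow_card_sub_X_natDegree_eq Ω hq, hcard] at hle
  omega

private theorem Cub_coeffs {Ω : Type*} [Field Ω] {p q r a b : Ω} (hab : a ≠ b)
    (ha : a ^ 3 + p * a ^ 2 + q * a + r = 0) (hb : b ^ 3 + p * b ^ 2 + q * b + r = 0) :
    q = -(a ^ 2 + a * b + b ^ 2) - p * (a + b) ∧
      r = -a ^ 3 - p * a ^ 2 - (-(a ^ 2 + a * b + b ^ 2) - p * (a + b)) * a := by
  have h1 : (a - b) * (a ^ 2 + a * b + b ^ 2 + p * (a + b) + q) = 0 := by
    linear_combination ha - hb
  have h2 : a ^ 2 + a * b + b ^ 2 + p * (a + b) + q = 0 :=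
    (mul_eq_zero.1 h1).resolve_left (sub_ne_zero.2 hab)
  have h3 : q = -(a ^ 2 + a * b + b ^ 2) - p * (a + b) := by
    linear_combination h2
  refine ⟨h3, ?_⟩
  rw [← h3]
  linear_combination ha

private theorem Cub_unique {κ : Type*} [Field κ] (p q r : κ)
    (hd : ¬ IsSquare (p ^ 2 * q ^ 2 - 4 * q ^ 3 - 4 * p ^ 3 * r - 27 * r ^ 2 + 18 * p * q * r))
    (x : κ) (hx : x ^ 3 + p * x ^ 2 + q * x + r = 0) (y : κ)
    (hy : y ^ 3 + p * y ^ 2 + q * y + r = 0) : y = x := by
  by_contra hyx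
  apply hd
  obtain ⟨h1, h2⟩ := Cub_coeffs (Ne.symm hyx) hx hy
  refine ⟨(x - y) * (y - (-p - x - y)) * ((-p - x - y) - x), ?_⟩
  rw [h2, h1]
  ring

theorem cubic_root {κ : Type*} [Field κ] [Finite κ] (h2 : (2 : κ) ≠ 0) (p q r : κ)
    (hd : ¬ IsSquare (p ^ 2 * q ^ 2 - 4 * q ^ 3 - 4 * p ^ 3 * r - 27 * r ^ 2 + 18 * p * q * r)) :
    ∃ x : κ, x ^ 3 + p * x ^ 2 + q * x + r = 0 ∧
      ∀ y : κ, y ^ 3 + p * y ^ 2 + q * y + r = 0 → y = x := by
  classical
  have := Fintype.ofFinite κ
  suffices hex : ∃ x : κ, x ^ 3 + p * x ^ 2 + q * x + r = 0 by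
    obtain ⟨x, hx⟩ := hex
    exact ⟨x, hx, Cub_unique p q r hd x hx⟩
  by_contra hno
  push Not at hno
  let ι : κ →+* AlgebraicClosure κ := algebraMap κ (AlgebraicClosure κ)
  have hι : Function.Injective ι := (algebraMap κ (AlgebraicClosure κ)).injective
  let φ : AlgebraicClosure κ →ₐ[κ] AlgebraicClosure κ :=
    FiniteField.frobeniusAlgHom κ (AlgebraicClosure κ)
  have hφ : ∀ z, φ z = z ^ Fintype.card κ := fun z => rfl
  have hφι : ∀ c : κ, φ (ι c) = ι c := fun c => φ.commutes c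
  have hφinj : Function.Injective φ := φ.toRingHom.injective
  have hfix : ∀ z, φ z = z → ∃ y : κ, ι y = z := fun z hz => Cub_fixed z (by rw [← hφ, hz])
  have hroot : ∀ z : AlgebraicClosure κ, z ^ 3 + ι p * z ^ 2 + ι q * z + ι r = 0 → φ z ≠ z := by
    intro z hz hzz
    obtain ⟨y, hy⟩ := hfix z hzz
    apply hno y
    apply hι
    rw [map_add, map_add, map_add, map_mul, map_mul, map_pow, map_pow, hy, hz, map_zero]
  have hmap : ∀ z : AlgebraicClosure κ, z ^ 3 + ι p * z ^ 2 + ι q * z + ι r = 0 →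
      φ z ^ 3 + ι p * φ z ^ 2 + ι q * φ z + ι r = 0 := by
    intro z hz
    have h := congrArg φ hz
    rw [map_add, map_add, map_add, map_mul, map_mul, map_pow, map_pow, hφι, hφι, hφι,
      map_zero] at h
    exact h
  obtain ⟨a, ha⟩ : ∃ a : AlgebraicClosure κ, a ^ 3 + ι p * a ^ 2 + ι q * a + ι r = 0 := by
    have hdeg : (Polynomial.X ^ 3 + Polynomial.C p * Polynomial.X ^ 2 +
        Polynomial.C q * Polynomial.X + Polynomial.C r : Polynomial κ).degree ≠ 0 := by
      have h3 : (Polynomial.X ^ 3 + Polynomial.C p * Polynomial.X ^ 2 +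
        Polynomial.C q * Polynomial.X + Polynomial.C r : Polynomial κ).degree = 3 := by
        compute_degree!
      rw [h3]
      decide
    obtain ⟨a, ha⟩ := IsAlgClosed.exists_aeval_eq_zero (AlgebraicClosure κ) _ hdeg
    refine ⟨a, ?_⟩
    rw [map_add, map_add, map_add, map_mul, map_mul, map_pow, map_pow, Polynomial.aeval_X,
      Polynomial.aeval_C, Polynomial.aeval_C, Polynomial.aeval_C] at ha
    exact ha
  have hb := hmap a ha
  have hc := hmap _ hb
  have hab : a ≠ φ a := fun h => hroot a ha h.symm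
  have hbc : φ a ≠ φ (φ a) := fun h => hab (hφinj h)
  obtain ⟨hq, hr⟩ := Cub_coeffs hab ha hb
  have hac : φ (φ a) ≠ a := by
    intro hca
    have hdr : (-ι p - a - φ a) ^ 3 + ι p * (-ι p - a - φ a) ^ 2 + ι q * (-ι p - a - φ a) + ι r
        = 0 := by
      rw [hr, hq]
      ring
    apply hroot _ hdr
    rw [map_sub, map_sub, map_neg, hφι, hca]
    ring
  have hγ : φ (φ a) = -ι p - a - φ a := by
    have h : (φ (φ a) - a) * ((φ (φ a) - φ a) * (φ (φ a) - (-ι p - a - φ a))) = 0 := by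
      have h' : (φ (φ a) - a) * ((φ (φ a) - φ a) * (φ (φ a) - (-ι p - a - φ a))) =
          φ (φ a) ^ 3 + ι p * φ (φ a) ^ 2 + ι q * φ (φ a) + ι r := by
        rw [hr, hq]
        ring
      rw [h', hc]
    have h1 := (mul_eq_zero.1 h).resolve_left (sub_ne_zero.2 hac)
    have h2 := (mul_eq_zero.1 h1).resolve_left (sub_ne_zero.2 (Ne.symm hbc))
    exact sub_eq_zero.1 h2
  have hφγ : φ (φ (φ a)) = a := by
    have h := congrArg φ hγ
    rw [map_sub, map_sub, map_neg, hφι] at h
    rw [h]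
    linear_combination -hγ
  obtain ⟨y, hy⟩ := hfix ((a - φ a) * (φ a - φ (φ a)) * (φ (φ a) - a)) (by
    rw [map_mul, map_mul, map_sub, map_sub, map_sub, hφγ]
    ring)
  apply hd
  refine ⟨y, ?_⟩
  apply hι
  rw [map_mul, hy, map_add, map_sub, map_sub, map_sub]
  simp only [map_mul, map_pow, map_ofNat]
  rw [hγ, hr, hq]
  ring

end Pool.Agent.Lib.MP_1a91b9_nuI
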