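import Pool.Agent.Lib.MP_1a91b9_nt.VarChange
import Pool.Agent.Lib.MP_1a91b9_nuI.Defs

/-!
# Isogenies of degree 2 and 3: the maps on points
-/

set_option autoImplicit false

namespace Pool.Agent.Lib.MP_1a91b9_nuI

open WeierstrassCurve

section
variable {F : Type*} [Field F]

/-- `W : y² = x³ + a x² + b x` and `W' : y² = x³ - 2 a x² + (a² - 4 b) x` -/
structure Rel2 (W W' : WeierstrassCurve F) : Prop where
  two : (2 : F) ≠ 0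
  a₁ : W.a₁ = 0
  a₃ : W.a₃ = 0
  a₆ : W.a₆ = 0
  a₁' : W'.a₁ = 0
  a₃' : W'.a₃ = 0
  a₆' : W'.a₆ = 0
  a₂' : W'.a₂ = -2 * W.a₂
  a₄' : W'.a₄ = W.a₂ ^ 2 - 4 * W.a₄
  b0 : W.a₄ ≠ 0
  b0' : W'.a₄ ≠ 0

/-- `W : y² = x³ + a x² + b x + c`, `4 a c = b²`, and
`W' : y² = x³ + a x² - 9 b x - 27 c - 8 a b` -/
structure Rel3 (W W' : WeierstrassCurve F) : Prop where
  two : (2 : F) ≠ 0
  three : (3 : F) ≠ 0
  a₁ : W.a₁ = 0
  a₃ : W.a₃ = 0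
  a₁' : W'.a₁ = 0
  a₃' : W'.a₃ = 0
  a₂' : W'.a₂ = W.a₂
  a₄' : W'.a₄ = -9 * W.a₄
  a₆' : W'.a₆ = -27 * W.a₆ - 8 * W.a₂ * W.a₄
  rel : 4 * W.a₂ * W.a₆ = W.a₄ ^ 2
  c0 : W.a₆ ≠ 0
  d0 : W.a₄ ^ 3 - 54 * W.a₆ ^ 2 ≠ 0

theorem Rel2.Δ {W W' : WeierstrassCurve F} (h : Rel2 W W') : W.Δ ≠ 0 := by
  have h4 : (4 : F) ≠ 0 := by
    have h2 : (4 : F) = 2 ^ 2 := by norm_num
    rw [h2]
    exact pow_ne_zero 2 h.two
  have h1 : W.Δ = 4 * 4 * W.a₄ ^ 2 * W'.a₄ := by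
    rw [h.a₄', WeierstrassCurve.Δ, WeierstrassCurve.b₂, WeierstrassCurve.b₄, WeierstrassCurve.b₆,
      WeierstrassCurve.b₈, h.a₁, h.a₃, h.a₆]
    ring
  rw [h1]
  exact mul_ne_zero (mul_ne_zero (mul_ne_zero h4 h4) (pow_ne_zero 2 h.b0)) h.b0'

theorem Rel2.Δ' {W W' : WeierstrassCurve F} (h : Rel2 W W') : W'.Δ ≠ 0 := by
  have h4 : (4 : F) ≠ 0 := by
    have h2 : (4 : F) = 2 ^ 2 := by norm_num
    rw [h2]
    exact pow_ne_zero 2 h.two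
  have h1 : W'.Δ = 4 * 4 * 4 * 4 * W.a₄ * W'.a₄ ^ 2 := by
    rw [h.a₄', WeierstrassCurve.Δ, WeierstrassCurve.b₂, WeierstrassCurve.b₄, WeierstrassCurve.b₆,
      WeierstrassCurve.b₈, h.a₁', h.a₃', h.a₆', h.a₂', h.a₄']
    ring
  rw [h1]
  exact mul_ne_zero (mul_ne_zero (mul_ne_zero (mul_ne_zero (mul_ne_zero h4 h4) h4) h4) h.b0)
    (pow_ne_zero 2 h.b0')

theorem Rel3.Δ {W W' : WeierstrassCurve F} (h : Rel3 W W') : W.Δ ≠ 0 := by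
  have h1 : W.Δ = 2 ^ 3 * (W.a₄ ^ 3 - 54 * W.a₆ ^ 2) := by
    rw [WeierstrassCurve.Δ, WeierstrassCurve.b₂, WeierstrassCurve.b₄, WeierstrassCurve.b₆,
      WeierstrassCurve.b₈, h.a₁, h.a₃]
    linear_combination (-16 * W.a₂ ^ 2 + 72 * W.a₄) * h.rel
  rw [h1]
  exact mul_ne_zero (pow_ne_zero 3 h.two) h.d0

theorem Rel3.velu {W W' : WeierstrassCurve F} (h : Rel3 W W') : velu3 W = W' := by
  ext
  · rw [h.a₁', velu3, h.a₁]
  · rw [h.a₂', velu3]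
  · rw [h.a₃', velu3, h.a₃]
  · rw [h.a₄', velu3, WeierstrassCurve.b₄, h.a₁]
    ring
  · rw [h.a₆', velu3, WeierstrassCurve.b₄, WeierstrassCurve.b₂, WeierstrassCurve.b₆, h.a₁, h.a₃]
    ring

theorem Rel3.b₈ {W W' : WeierstrassCurve F} (h : Rel3 W W') : W.b₈ = 0 := by
  rw [WeierstrassCurve.b₈, h.a₁, h.a₃]
  linear_combination h.rel

theorem Rel3.Δ' {W W' : WeierstrassCurve F} (h : Rel3 W W') : W'.Δ ≠ 0 := by
  intro h0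
  have h1 := velu3_Δ_mul W h.b₈
  rw [h.velu, h0, zero_mul] at h1
  exact pow_ne_zero 3 h.Δ h1.symm

/-- the equation of a curve with `a₁ = a₃ = 0` -/
theorem eqn (W : WeierstrassCurve F) (h1 : W.a₁ = 0) (h3 : W.a₃ = 0) (x y : F) :
    W.toAffine.Equation x y ↔ y ^ 2 = x ^ 3 + W.a₂ * x ^ 2 + W.a₄ * x + W.a₆ := by
  rw [Affine.equation_iff]
  show y ^ 2 + W.a₁ * x * y + W.a₃ * y = x ^ 3 + W.a₂ * x ^ 2 + W.a₄ * x + W.a₆ ↔ _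
  rw [h1, h3]
  constructor
  · intro h
    linear_combination h
  · intro h
    linear_combination h

theorem nons (W : WeierstrassCurve F) (hΔ : W.Δ ≠ 0) (h1 : W.a₁ = 0) (h3 : W.a₃ = 0) (x y : F) :
    W.toAffine.Nonsingular x y ↔ y ^ 2 = x ^ 3 + W.a₂ * x ^ 2 + W.a₄ * x + W.a₆ := by
  have : W.IsElliptic := ⟨isUnit_iff_ne_zero.2 hΔ⟩
  rw [← Affine.equation_iff_nonsingular, eqn W h1 h3]

theorem phi2_eqn (a b x y : F) (hx : x ≠ 0) (h : y ^ 2 = x ^ 3 + a * x ^ 2 + b * x) :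
    (y * (1 - b / x ^ 2)) ^ 2 = (x + a + b / x) ^ 3 + -2 * a * (x + a + b / x) ^ 2 +
      (a ^ 2 - 4 * b) * (x + a + b / x) := by
  have h1 : (y * (1 - b / x ^ 2)) ^ 2 = y ^ 2 * (x ^ 2 - b) ^ 2 / x ^ 4 := by
    field_simp
  rw [h1, h]
  field_simp
  ring

theorem phi3_eqn (a b c x y : F) (hx : x ≠ 0) (hr : 4 * a * c = b ^ 2)
    (h : y ^ 2 = x ^ 3 + a * x ^ 2 + b * x + c) :
    (y * (1 - 2 * b / x ^ 2 - 8 * c / x ^ 3)) ^ 2 =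
      (x + 2 * b / x + 4 * c / x ^ 2) ^ 3 + a * (x + 2 * b / x + 4 * c / x ^ 2) ^ 2 +
      -9 * b * (x + 2 * b / x + 4 * c / x ^ 2) + (-27 * c - 8 * a * b) := by
  have h1 : (y * (1 - 2 * b / x ^ 2 - 8 * c / x ^ 3)) ^ 2 =
      y ^ 2 * (x ^ 3 - 2 * b * x - 8 * c) ^ 2 / x ^ 6 := by
    field_simp
  rw [h1, h]
  field_simp
  linear_combination (-6 * x ^ 5 + 4 * b * x ^ 3 + 12 * c * x ^ 2) * hr

open Classical in
/-- the isogeny of degree 2 -/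
noncomputable def phi2 {W W' : WeierstrassCurve F} (h : Rel2 W W') :
    W.toAffine.Point → W'.toAffine.Point
  | .zero => .zero
  | .some x y hxy => if hx : x = 0 then .zero else
      .some (x + W.a₂ + W.a₄ / x) (y * (1 - W.a₄ / x ^ 2)) (by
        rw [nons W' h.Δ' h.a₁' h.a₃', h.a₂', h.a₄', h.a₆', add_zero]
        apply phi2_eqn _ _ _ _ hx
        rw [nons W h.Δ h.a₁ h.a₃, h.a₆, add_zero] at hxy
        exact hxy)

open Classical in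
/-- the isogeny of degree 3 -/
noncomputable def phi3 {W W' : WeierstrassCurve F} (h : Rel3 W W') :
    W.toAffine.Point → W'.toAffine.Point
  | .zero => .zero
  | .some x y hxy => if hx : x = 0 then .zero else
      .some (x + 2 * W.a₄ / x + 4 * W.a₆ / x ^ 2)
        (y * (1 - 2 * W.a₄ / x ^ 2 - 8 * W.a₆ / x ^ 3)) (by
        rw [nons W' h.Δ' h.a₁' h.a₃', h.a₂', h.a₄', h.a₆']
        apply phi3_eqn _ _ _ _ _ hx h.rel
        rw [nons W h.Δ h.a₁ h.a₃] at hxy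
        exact hxy)

end

end Pool.Agent.Lib.MP_1a91b9_nuI
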