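import Pool.Agent.Lib.MP_1a91b9_nuX.UF.Uni
import Pool.Agent.Lib.MP_1a91b9_nuX.UF.Cd
import Pool.Agent.Lib.MP_1a91b9_nuI.Fa.FamU

/-!
# Towers over abelian fields for all the curves over `ℚ` with complex multiplication
-/

set_option autoImplicit false

namespace Pool.Agent.Lib.MP_1a91b9_nuI

open NumberField IsDedekindDomain WeierstrassCurve Module
open Pool.Agent.Lib.MP_1a91b9_nuX.UF (thmU)

/-- both conclusions -/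
def Con12 (ℓ : ℕ) (N : Type) [Field N] [NumberField N] (W : WeierstrassCurve N) : Prop :=
  Con1 N W ∧ Con2' ℓ N W

/-- the nine maximal orders -/
theorem nine_thm (A B J d : ℤ) (hAB : 4 * A ^ 3 + 27 * B ^ 2 ≠ 0)
    (hj : 6912 * A ^ 3 = J * (4 * A ^ 3 + 27 * B ^ 2)) (hJ : (J, d) ∈ nine) :
    Thm A B (cA A B d) (B * d ^ 3) d (if d = -3 then 6 else 2) (A = 0 ∧ B = 16) {3} Con12 := by
  intro K N₀ F₀ L₀ _ _ _ _ _ _ _ _ _ _ _ _ _ _ hK hz hN x y ht hxy hr hg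
  obtain ⟨hns, ht⟩ := ht
  obtain ⟨S, hS1, hS2⟩ := thmU K N₀ F₀ L₀ hK hJ hz hAB hj hN x y hns ht hxy hr
    (fun hn => hg fun h => hn ⟨h.1.1, h.1.2, h.2⟩)
  refine ⟨S, fun h => hS1 ⟨h.1.1, h.1.2, h.2⟩, fun ℓ hℓ hℓS => ?_⟩
  intro n N L M _ _ _ _ _ _ _ _ _ _ _ _ hM hR W C hC hW
  obtain ⟨h1, h2⟩ := hS2 ℓ hℓ hℓS n N L M hM hR W C hC hW
  refine ⟨h1, fun hf g g1 g2 => ?_⟩
  obtain ⟨h3, h4, h5, h6, h7⟩ := h2 hf
  exact ⟨h3 g g1 fun s hs => g2 s (by linarith), h4, h5, h6, h7⟩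

theorem Thm.imp {A B A₁ B₁ d : ℤ} {w : ℕ} {sp : Prop} {S₀ : Finset ℕ}
    {Q Q' : ∀ (ℓ : ℕ) (N : Type) [Field N] [NumberField N], WeierstrassCurve N → Prop}
    (h : ∀ (ℓ : ℕ) (N : Type) [Field N] [NumberField N] (W : WeierstrassCurve N), Q ℓ N W →
      Q' ℓ N W) (H : Thm A B A₁ B₁ d w sp S₀ Q) : Thm A B A₁ B₁ d w sp S₀ Q' := by
  intro K N₀ F₀ L₀ _ _ _ _ _ _ _ _ _ _ _ _ _ _ hK hz hN x y ht hxy hr hg
  obtain ⟨S, hS1, hS2⟩ := H K N₀ F₀ L₀ hK hz hN x y ht hxy hr hg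
  refine ⟨S, hS1, fun ℓ hℓ hℓS => ?_⟩
  intro n N L M _ _ _ _ _ _ _ _ _ _ _ _ hM hR W C hC hW
  exact h ℓ N W (hS2 ℓ hℓ hℓS n N L M hM hR W C hC hW)

/-- **The first question.** -/
theorem top1 (A B J d : ℤ) (hAB : 4 * A ^ 3 + 27 * B ^ 2 ≠ 0)
    (hj : 6912 * A ^ 3 = J * (4 * A ^ 3 + 27 * B ^ 2)) (hJ : (J, d) ∈ thirteen) :
    Thm A B (cA A B d) (B * d ^ 3) d (if d = -3 then 6 else 2)
      ((A = 0 ∧ B = 16) ∨ (A = -480 ∧ B = 4048)) {3} (fun _ => Con1) :=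
  all1 (fun A B J d h1 h2 h3 => (nine_thm A B J d h1 h2 h3).imp fun _ _ _ _ _ h => h.1)
    A B J d hAB hj hJ

/-- **The second question.** -/
theorem top2 (A B J d : ℤ) (hAB : 4 * A ^ 3 + 27 * B ^ 2 ≠ 0)
    (hj : 6912 * A ^ 3 = J * (4 * A ^ 3 + 27 * B ^ 2)) (hJ : (J, d) ∈ thirteen) :
    Thm A B (cA A B d) (B * d ^ 3) d (if d = -3 then 6 else 2)
      ((A = 0 ∧ B = 16) ∨ (A = -480 ∧ B = 4048)) (if A = 0 then {3} else {2, 3}) Con2' := by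
  obtain ⟨_, _, _, _, _, _, c, _⟩ := Pool.Agent.Lib.MP_1a91b9_nuX.UF.exists_cd (A := 0) (B := 1)
    (J := 0) (by norm_num) (by norm_num) (by simp [Pool.Agent.Lib.MP_1a91b9_nuX.UF.jList]) 1
    one_ne_zero
  exact all2 (fun A B J d h1 h2 h3 => (nine_thm A B J d h1 h2 h3).imp fun _ _ _ _ _ h => h.2)
    A B J d hAB hj hJ

end Pool.Agent.Lib.MP_1a91b9_nuI
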