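import Pool.Agent.Lib.MP_1a91b9_nuI.LocM
import Pool.Agent.Lib.MP_1a91b9_nuI.A2
import Pool.Agent.Lib.MP_1a91b9_nuI.B2M

/-!
# Good models of 2-isogenous curves correspond to each other
-/

set_option autoImplicit false

namespace Pool.Agent.Lib.MP_1a91b9_nuI

open WeierstrassCurve IsDedekindDomain

section
variable (R : Type*) [CommRing R] [IsDomain R] [IsDiscreteValuationRing R]
  {K : Type*} [Field K] [Algebra R K] [IsFractionRing R K]

theorem good_change (W : WeierstrassCurve K) (C : VariableChange K) (n : ℕ)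
    (h : Good R (C • W) n) : Good R W n := by
  obtain ⟨C', W₀, h1, h2, h3⟩ := h
  exact ⟨C' * C, W₀, by rw [mul_smul, h1], h2, h3⟩

theorem good_change' (W : WeierstrassCurve K) (C : VariableChange K) (n : ℕ)
    (h : Good R W n) : Good R (C • W) n := by
  apply good_change R (C • W) C⁻¹ n
  rwa [inv_smul_smul]

theorem E2_smul (a b : K) (u : Kˣ) (s : K) :
    (⟨u, 0, s, 0⟩ : VariableChange K) • E2 a b =
      form2 (2 * s * (↑u⁻¹ : K)) ((a - s ^ 2) * (↑u⁻¹ : K) ^ 2) (b * (↑u⁻¹ : K) ^ 4) := by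
  ext
  · simp only [variableChange_a₁, form2, E2]
    ring
  · simp only [variableChange_a₂, form2, E2]
    ring
  · simp only [variableChange_a₃, form2, E2]
    ring
  · simp only [variableChange_a₄, form2, E2]
    ring
  · simp only [variableChange_a₆, form2, E2]
    ring

theorem E2_velu (a b : K) (u : Kˣ) (s : K) :
    velu2 (2 * s * (↑u⁻¹ : K)) ((a - s ^ 2) * (↑u⁻¹ : K) ^ 2) (b * (↑u⁻¹ : K) ^ 4) =
      (⟨u, 0, s, 0⟩ : VariableChange K) • (⟨1, a, 0, 0⟩ : VariableChange K) •
        E2 (-2 * a) (a ^ 2 - 4 * b) := by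
  ext
  · simp only [variableChange_a₁, velu2, E2, inv_one, Units.val_one]
    ring
  · simp only [variableChange_a₂, variableChange_a₁, velu2, E2, inv_one, Units.val_one]
    ring
  · simp only [variableChange_a₃, variableChange_a₁, velu2, E2, inv_one, Units.val_one]
    ring
  · simp only [variableChange_a₄, variableChange_a₁, variableChange_a₂, variableChange_a₃,
      velu2, E2, inv_one, Units.val_one]
    ring
  · simp only [variableChange_a₆, variableChange_a₄, variableChange_a₁, variableChange_a₂,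
      variableChange_a₃, velu2, E2, inv_one, Units.val_one]
    ring

/-- an element with a square in `R` is in `R` -/
theorem mem_of_sq (x : K) (c d : R) (h : x ^ 2 + algebraMap R K c * x = algebraMap R K d) :
    ∃ y : R, algebraMap R K y = x := by
  apply IsIntegrallyClosed.isIntegral_iff.1
  refine ⟨Polynomial.X ^ 2 + Polynomial.C c * Polynomial.X + Polynomial.C (-d), ?_, ?_⟩
  · have h1 : Polynomial.X ^ 2 + Polynomial.C c * Polynomial.X + Polynomial.C (-d) =
        Polynomial.X ^ 2 + (Polynomial.C c * Polynomial.X + Polynomial.C (-d)) := by ring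
    rw [h1]
    apply Polynomial.monic_X_pow_add
    exact lt_of_le_of_lt (Polynomial.degree_linear_le) (by norm_num)
  · simp only [Polynomial.eval₂_add, Polynomial.eval₂_mul, Polynomial.eval₂_pow,
      Polynomial.eval₂_X, Polynomial.eval₂_C, map_neg, Polynomial.eval₂_neg]
    linear_combination h

theorem good_two [Finite (IsLocalRing.ResidueField R)] (a b : K) (n : ℕ)
    (h : Good R (E2 a b) n) : Good R (E2 (-2 * a) (a ^ 2 - 4 * b)) n := by
  obtain ⟨C, W₀, hC, hΔ, hn⟩ := h
  obtain ⟨u, r, s, t⟩ := C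
  have hinj : Function.Injective (algebraMap R K) := IsFractionRing.injective R K
  have hu : (↑u : K) ≠ 0 := u.ne_zero
  set x₀ : K := -r * (↑u⁻¹ : K) ^ 2 with hx₀
  set y₀ : K := (r * s - t) * (↑u⁻¹ : K) ^ 3 with hy₀
  set W := W₀.map (algebraMap R K) with hW
  have huu : (↑u⁻¹ : K) * (↑u : K) = 1 := u.inv_mul
  have h1 : (⟨1, x₀, 0, y₀⟩ : VariableChange K) • W =
      (⟨u, 0, s, 0⟩ : VariableChange K) • E2 a b := by
    rw [← hC, ← mul_smul]
    congr 1
    ext
    · simp [VariableChange.mul_def]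
    · simp only [VariableChange.mul_def, hx₀]
      linear_combination (-r * ((↑u⁻¹ : K) * (↑u : K) + 1)) * huu
    · simp [VariableChange.mul_def]
    · simp only [VariableChange.mul_def, hx₀, hy₀]
      linear_combination ((r * s - t) * (((↑u⁻¹ : K) * (↑u : K)) ^ 2 + ((↑u⁻¹ : K) * (↑u : K)) + 1) -
        r * s * ((↑u⁻¹ : K) * (↑u : K) + 1)) * huu
  rw [E2_smul] at h1
  have e3 := congrArg WeierstrassCurve.a₃ h1
  have e6 := congrArg WeierstrassCurve.a₆ h1
  simp only [variableChange_a₃, variableChange_a₆, form2, inv_one, Units.val_one] at e3 e6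
  have k1 : 2 * y₀ + W.a₁ * x₀ + W.a₃ = 0 := by linear_combination e3
  have k2 : y₀ ^ 2 + W.a₁ * x₀ * y₀ + W.a₃ * y₀ = x₀ ^ 3 + W.a₂ * x₀ ^ 2 + W.a₄ * x₀ + W.a₆ := by
    linear_combination -e6
  have hf := form2_of_point W x₀ y₀ k1 k2
  rw [h1] at hf
  have f1 := congrArg WeierstrassCurve.a₁ hf
  have f2 := congrArg WeierstrassCurve.a₂ hf
  have f4 := congrArg WeierstrassCurve.a₄ hf
  simp only [form2] at f1 f2 f4
  have k1' : 2 * y₀ + algebraMap R K W₀.a₁ * x₀ + algebraMap R K W₀.a₃ = 0 := k1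
  have k2' : y₀ ^ 2 + algebraMap R K W₀.a₁ * x₀ * y₀ + algebraMap R K W₀.a₃ * y₀ =
      x₀ ^ 3 + algebraMap R K W₀.a₂ * x₀ ^ 2 + algebraMap R K W₀.a₄ * x₀ +
        algebraMap R K W₀.a₆ := k2
  -- it is enough to find a good model of the quotient
  suffices hV : Good R (velu2 W.a₁ (W.a₂ + 3 * x₀)
      (W.a₄ + 2 * x₀ * W.a₂ - y₀ * W.a₁ + 3 * x₀ ^ 2)) n by
    rw [← f4, ← f2, ← f1, E2_velu] at hV
    exact good_change R _ _ n (good_change R _ _ n hV)
  by_cases hx : ∃ x : R, algebraMap R K x = x₀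
  · obtain ⟨x, hx⟩ := hx
    obtain ⟨y, hy⟩ : ∃ y : R, algebraMap R K y = y₀ := by
      apply mem_of_sq R y₀ (W₀.a₁ * x + W₀.a₃) (x ^ 3 + W₀.a₂ * x ^ 2 + W₀.a₄ * x + W₀.a₆)
      simp only [map_add, map_mul, map_pow, hx]
      linear_combination k2'
    have l1 : 2 * y + W₀.a₁ * x + W₀.a₃ = 0 := by
      apply hinj
      simp only [map_add, map_mul, map_zero, map_ofNat, hx, hy]
      exact k1'
    have l2 : y ^ 2 + W₀.a₁ * x * y + W₀.a₃ * y = x ^ 3 + W₀.a₂ * x ^ 2 + W₀.a₄ * x + W₀.a₆ := by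
      apply hinj
      simp only [map_add, map_mul, map_pow, hx, hy]
      exact k2'
    obtain ⟨m1, m2⟩ := caseA2 W₀ hΔ x y l1 l2
    refine ⟨1, _, ?_, m1, ?_⟩
    · rw [one_smul, velu2_map]
      simp only [map_add, map_mul, map_sub, map_pow, map_ofNat, hx, hy]
      rfl
    · rw [m2, hn]
  · have hx0 : x₀ ≠ 0 := by
      intro h0
      exact hx ⟨0, by rw [map_zero, h0]⟩
    obtain ⟨e, he⟩ : ∃ e : R, algebraMap R K e = x₀⁻¹ := by
      rcases ValuationRing.isInteger_or_isInteger R x₀ with h0 | h0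
      · exact absurd h0 hx
      · exact h0
    have he0 : algebraMap R K e ≠ 0 := by
      rw [he]
      exact inv_ne_zero hx0
    have hem : e ∈ IsLocalRing.maximalIdeal R := by
      rw [IsLocalRing.mem_maximalIdeal, mem_nonunits_iff]
      intro hu
      obtain ⟨v, hv⟩ := hu
      apply hx
      refine ⟨(↑v⁻¹ : R), ?_⟩
      have h3 : algebraMap R K (↑v⁻¹ : R) * algebraMap R K e = 1 := by
        rw [← map_mul, ← hv, Units.inv_mul, map_one]
      rw [he] at h3
      field_simp at h3
      exact h3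
    have hex : algebraMap R K e * x₀ = 1 := by
      rw [he]
      exact inv_mul_cancel₀ hx0
    have hxe : x₀ = (algebraMap R K e)⁻¹ := by rw [he, inv_inv]
    set s' : K := y₀ * algebraMap R K e with hs'
    have hh : 2 * s' = algebraMap R K (-W₀.a₁ - W₀.a₃ * e) := by
      rw [map_sub, map_neg, map_mul, hs']
      linear_combination algebraMap R K e * k1' - algebraMap R K W₀.a₁ * hex
    have hrel : s' ^ 2 * algebraMap R K e + (1 + algebraMap R K W₀.a₂ * algebraMap R K e +
        algebraMap R K W₀.a₄ * algebraMap R K e ^ 2 + algebraMap R K W₀.a₆ *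
        algebraMap R K e ^ 3) = 0 := by
      have k3 : y₀ ^ 2 + (x₀ ^ 3 + algebraMap R K W₀.a₂ * x₀ ^ 2 + algebraMap R K W₀.a₄ * x₀ +
          algebraMap R K W₀.a₆) = 0 := by
        linear_combination y₀ * k1' - k2'
      have k4 : (algebraMap R K e * x₀) ^ 3 = 1 := by rw [hex, one_pow]
      have k5 : (algebraMap R K e * x₀) ^ 2 = 1 := by rw [hex, one_pow]
      rw [hs']
      linear_combination algebraMap R K e ^ 3 * k3 - k4 -
        algebraMap R K W₀.a₂ * algebraMap R K e * k5 -
        algebraMap R K W₀.a₄ * algebraMap R K e ^ 2 * hex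
    set w : R := 1 + W₀.a₂ * e + W₀.a₄ * e ^ 2 + W₀.a₆ * e ^ 3 with hw
    have hwK : algebraMap R K w = 1 + algebraMap R K W₀.a₂ * algebraMap R K e +
        algebraMap R K W₀.a₄ * algebraMap R K e ^ 2 + algebraMap R K W₀.a₆ *
        algebraMap R K e ^ 3 := by
      rw [hw]
      simp only [map_add, map_mul, map_pow, map_one]
    rw [← hwK] at hrel
    have hwu : IsUnit w := by
      apply IsLocalRing.residue_ne_zero_iff_isUnit _ |>.1
      have h3 : IsLocalRing.residue R e = 0 := (IsLocalRing.residue_eq_zero_iff e).2 hem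
      rw [hw]
      simp only [map_add, map_mul, map_pow, map_one, h3]
      simp
    have hs0 : s' ≠ 0 := by
      intro h0
      rw [h0] at hrel
      have h3 : algebraMap R K w = 0 := by linear_combination hrel
      have h4 : w = 0 := hinj (by rw [h3, map_zero])
      rw [h4] at hwu
      exact not_isUnit_zero hwu
    obtain ⟨k, hk⟩ : ∃ k : R, algebraMap R K k = s' * algebraMap R K e := by
      apply mem_of_sq R _ 0 (-e * w)
      rw [map_zero, map_mul, map_neg]
      linear_combination algebraMap R K e * hrel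
    have hk2 : k ^ 2 = -e * w := by
      apply hinj
      rw [map_pow, map_mul, map_neg, hk]
      linear_combination algebraMap R K e * hrel
    have hkm : k ∈ IsLocalRing.maximalIdeal R := by
      have h3 : k ^ 2 ∈ IsLocalRing.maximalIdeal R := by
        rw [hk2]
        exact Ideal.mul_mem_right _ _ (neg_mem hem)
      exact Ideal.IsPrime.mem_of_pow_mem inferInstance 2 h3
    have h2m : (2 : R) ∈ IsLocalRing.maximalIdeal R := by
      have h3 : (-W₀.a₁ - W₀.a₃ * e) ^ 2 * e = -2 ^ 2 * w := by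
        apply hinj
        rw [map_mul, map_pow, ← hh, map_mul, map_neg, map_pow, map_ofNat]
        linear_combination 4 * hrel
      have h4 : (2 : R) ^ 2 * w ∈ IsLocalRing.maximalIdeal R := by
        have h5 : (2 : R) ^ 2 * w = -((-W₀.a₁ - W₀.a₃ * e) ^ 2 * e) := by
          rw [h3]
          ring
        rw [h5]
        exact neg_mem (Ideal.mul_mem_left _ _ hem)
      have h5 : (2 : R) ^ 2 ∈ IsLocalRing.maximalIdeal R := by
        rcases Ideal.IsPrime.mem_or_mem inferInstance h4 with h6 | h6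
        · exact h6
        · exact absurd hwu ((IsLocalRing.mem_maximalIdeal _).1 h6)
      exact Ideal.IsPrime.mem_of_pow_mem inferInstance 2 h5
    obtain ⟨C', W₁, m1, m2, m3⟩ := caseB2 W₀ hΔ h2m e k (-W₀.a₁ - W₀.a₃ * e) hem hkm
      (by ring) s' hs0 he0 hk hh.symm (by rw [← hwK]; exact hrel)
    refine ⟨C', W₁, ?_, m2, by rw [m3, hn]⟩
    rw [← m1, hxe]
    have h3 : y₀ = s' * (algebraMap R K e)⁻¹ := by
      rw [hs', mul_assoc, mul_inv_cancel₀ he0, mul_one]
    rw [h3]
    rfl

end

end Pool.Agent.Lib.MP_1a91b9_nuI
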