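import Pool.Agent.Lib.MP_1a91b9_nuI.Loc2
import Pool.Agent.Lib.MP_1a91b9_nuI.A3
import Pool.Agent.Lib.MP_1a91b9_nuI.B3

/-!
# Good models of 3-isogenous curves correspond to each other
-/

set_option autoImplicit false

namespace Pool.Agent.Lib.MP_1a91b9_nuI

open WeierstrassCurve IsDedekindDomain

theorem velu3_smul {F : Type*} [CommRing F] (W : WeierstrassCurve F) (u : Fˣ) (s t : F) :
    velu3 ((⟨u, 0, s, t⟩ : VariableChange F) • W) =
      (⟨u, 0, s, t⟩ : VariableChange F) • velu3 W := by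
  have h2 : ((⟨u, 0, s, t⟩ : VariableChange F) • W).b₂ = (↑u⁻¹ : F) ^ 2 * W.b₂ := by
    rw [variableChange_b₂]
    ring
  have h4 : ((⟨u, 0, s, t⟩ : VariableChange F) • W).b₄ = (↑u⁻¹ : F) ^ 4 * W.b₄ := by
    rw [variableChange_b₄]
    ring
  have h6 : ((⟨u, 0, s, t⟩ : VariableChange F) • W).b₆ = (↑u⁻¹ : F) ^ 6 * W.b₆ := by
    rw [variableChange_b₆]
    ring
  ext
  · simp only [velu3, variableChange_a₁]
  · simp only [velu3, variableChange_a₂]
  · simp only [velu3, variableChange_a₃]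
  · rw [variableChange_a₄]
    simp only [velu3, h4, variableChange_a₄]
    ring
  · rw [variableChange_a₆]
    simp only [velu3, h2, h4, h6, variableChange_a₆]
    ring

section
variable (R : Type*) [CommRing R] [IsDomain R] [IsDiscreteValuationRing R]
  {K : Type*} [Field K] [Algebra R K] [IsFractionRing R K]

theorem good_three_core [Finite (IsLocalRing.ResidueField R)] (a b c : K) (habc : 4 * a * c = b ^ 2)
    (C : VariableChange K) (W₀ : WeierstrassCurve R)
    (hC : C • E3 a b c = W₀.map (algebraMap R K)) (hΔ : IsUnit W₀.Δ)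
    (hc : (6 : R) ∈ IsLocalRing.maximalIdeal R → W₀.c₄ ∈ IsLocalRing.maximalIdeal R)
    (h13 : (3 : R) ∈ IsLocalRing.maximalIdeal R → W₀.a₁ = 0 ∧ W₀.a₃ = 0) :
    Good R (E3 a (-9 * b) (-27 * c - 8 * a * b))
      (Nat.card (W₀.map (IsLocalRing.residue R)).toAffine.Point) := by
  obtain ⟨u, r, s, t⟩ := C
  have hinj : Function.Injective (algebraMap R K) := IsFractionRing.injective R K
  set x₀ : K := -r * (↑u⁻¹ : K) ^ 2 with hx₀
  have huu : (↑u⁻¹ : K) * (↑u : K) = 1 := u.inv_mul
  have h1 : (⟨1, x₀, 0, 0⟩ : VariableChange K) • W₀.map (algebraMap R K) =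
      (⟨u, 0, s, t - r * s⟩ : VariableChange K) • E3 a b c := by
    rw [← hC, ← mul_smul]
    congr 1
    ext
    · simp [VariableChange.mul_def]
    · simp only [VariableChange.mul_def, hx₀]
      linear_combination (-r * ((↑u⁻¹ : K) * (↑u : K) + 1)) * huu
    · simp [VariableChange.mul_def]
    · simp only [VariableChange.mul_def, hx₀]
      linear_combination (-r * s * ((↑u⁻¹ : K) * (↑u : K) + 1)) * huu
  have h8 : ((⟨1, x₀, 0, 0⟩ : VariableChange K) • W₀.map (algebraMap R K)).b₈ = 0 := by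
    rw [h1, variableChange_b₈, E3_b₈ a b c habc]
    ring
  suffices hV : Good R (velu3 ((⟨1, x₀, 0, 0⟩ : VariableChange K) • W₀.map (algebraMap R K)))
      (Nat.card (W₀.map (IsLocalRing.residue R)).toAffine.Point) by
    rw [h1, velu3_smul, velu3_E3] at hV
    exact good_change R _ _ _ hV
  by_cases hx : ∃ x : R, algebraMap R K x = x₀
  · obtain ⟨x, hx⟩ := hx
    set W₁ : WeierstrassCurve R := (⟨1, x, 0, 0⟩ : VariableChange R) • W₀ with hW₁
    have h2 : W₁.map (algebraMap R K) =
        (⟨1, x₀, 0, 0⟩ : VariableChange K) • W₀.map (algebraMap R K) := by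
      rw [hW₁, ← map_variableChange]
      congr 1
      ext
      · simp [VariableChange.map]
      · simp [VariableChange.map, hx]
      · simp [VariableChange.map]
      · simp [VariableChange.map]
    have h3 : W₁.b₈ = 0 := by
      apply hinj
      rw [← map_b₈, h2, h8, map_zero]
    have h4 : IsUnit W₁.Δ := by
      rw [hW₁, variableChange_Δ, inv_one, Units.val_one, one_pow, one_mul]
      exact hΔ
    have h5 : (6 : R) ∈ IsLocalRing.maximalIdeal R → W₁.c₄ ∈ IsLocalRing.maximalIdeal R := by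
      intro h6
      rw [hW₁, variableChange_c₄, inv_one, Units.val_one, one_pow, one_mul]
      exact hc h6
    obtain ⟨m1, m2⟩ := caseA3 W₁ h4 h3 h5
    refine ⟨1, velu3 W₁, ?_, m1, ?_⟩
    · rw [one_smul, velu3_map, h2]
    · rw [m2, hW₁, ← map_variableChange,
        Pool.Agent.Lib.MP_1a91b9_nt.card_point_variableChange]
  · have hx0 : x₀ ≠ 0 := by
      intro h0
      exact hx ⟨0, by rw [map_zero, h0]⟩
    obtain ⟨e, he⟩ : ∃ e : R, algebraMap R K e = x₀⁻¹ := by
      rcases ValuationRing.isInteger_or_isInteger R x₀ with h0 | h0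
      · exact absurd h0 hx
      · exact h0
    have he0 : algebraMap R K e ≠ 0 := by
      rw [he]
      exact inv_ne_zero hx0
    have he0' : e ≠ 0 := by
      intro h0
      rw [h0, map_zero] at he0
      exact he0 rfl
    have hem : e ∈ IsLocalRing.maximalIdeal R := by
      rw [IsLocalRing.mem_maximalIdeal, mem_nonunits_iff]
      intro hu
      obtain ⟨v, hv⟩ := hu
      apply hx
      refine ⟨(↑v⁻¹ : R), ?_⟩
      have h3 : algebraMap R K (↑v⁻¹ : R) * algebraMap R K e = 1 := by
        rw [← map_mul, ← hv, Units.inv_mul, map_one]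
      rw [he] at h3
      field_simp at h3
      exact h3
    have hex : algebraMap R K e * x₀ = 1 := by
      rw [he]
      exact inv_mul_cancel₀ hx0
    have hrel : 3 + W₀.b₂ * e + 3 * W₀.b₄ * e ^ 2 + 3 * W₀.b₆ * e ^ 3 + W₀.b₈ * e ^ 4 = 0 := by
      apply hinj
      rw [variableChange_b₈] at h8
      simp only [map_b₂, map_b₄, map_b₆, map_b₈, inv_one, Units.val_one] at h8
      simp only [map_add, map_mul, map_pow, map_ofNat, map_zero]
      have k2 : (algebraMap R K e * x₀) ^ 2 = 1 := by rw [hex, one_pow]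
      have k3 : (algebraMap R K e * x₀) ^ 3 = 1 := by rw [hex, one_pow]
      have k4 : (algebraMap R K e * x₀) ^ 4 = 1 := by rw [hex, one_pow]
      linear_combination algebraMap R K e ^ 4 * h8 - 3 * k4 -
        algebraMap R K W₀.b₂ * algebraMap R K e * k3 -
        3 * algebraMap R K W₀.b₄ * algebraMap R K e ^ 2 * k2 -
        3 * algebraMap R K W₀.b₆ * algebraMap R K e ^ 3 * hex
    have h3m : (3 : R) ∈ IsLocalRing.maximalIdeal R := by
      have h3 : (3 : R) = -(W₀.b₂ + 3 * W₀.b₄ * e + 3 * W₀.b₆ * e ^ 2 + W₀.b₈ * e ^ 3) * e := by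
        linear_combination hrel
      rw [h3]
      exact Ideal.mul_mem_left _ _ hem
    obtain ⟨ha1, ha3⟩ := h13 h3m
    have hrel' : 3 + 4 * W₀.a₂ * e + 6 * W₀.a₄ * e ^ 2 + 12 * W₀.a₆ * e ^ 3 +
        (4 * W₀.a₂ * W₀.a₆ - W₀.a₄ ^ 2) * e ^ 4 = 0 := by
      simp only [WeierstrassCurve.b₂, WeierstrassCurve.b₄, WeierstrassCurve.b₆,
        WeierstrassCurve.b₈, ha1, ha3] at hrel
      linear_combination hrel
    obtain ⟨C', W₁, m1, m2, m3⟩ := caseB3 hinj W₀ hΔ ha1 ha3 h3m e hem he0' hrel'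
    refine ⟨C', W₁, ?_, m2, m3⟩
    rw [← m1, he, inv_inv]

theorem good_three [Finite (IsLocalRing.ResidueField R)] (a b c : K) (habc : 4 * a * c = b ^ 2)
    (hj : ∃ j : R, ((6 : R) ∈ IsLocalRing.maximalIdeal R → j ∈ IsLocalRing.maximalIdeal R) ∧
      (E3 a b c).c₄ ^ 3 = algebraMap R K j * (E3 a b c).Δ) (n : ℕ)
    (h : Good R (E3 a b c) n) : Good R (E3 a (-9 * b) (-27 * c - 8 * a * b)) n := by
  obtain ⟨C, W₀, hC, hΔ, hn⟩ := h
  obtain ⟨j, hj1, hj2⟩ := hj
  have hinj : Function.Injective (algebraMap R K) := IsFractionRing.injective R K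
  have hc : (6 : R) ∈ IsLocalRing.maximalIdeal R → W₀.c₄ ∈ IsLocalRing.maximalIdeal R := by
    intro h6
    have h1 : W₀.c₄ ^ 3 = j * W₀.Δ := by
      apply hinj
      rw [map_pow, map_mul, ← map_c₄, ← map_Δ, ← hC, variableChange_c₄, variableChange_Δ, mul_pow,
        hj2]
      ring
    have h2 : W₀.c₄ ^ 3 ∈ IsLocalRing.maximalIdeal R := by
      rw [h1]
      exact Ideal.mul_mem_right _ _ (hj1 h6)
    exact Ideal.IsPrime.mem_of_pow_mem inferInstance 3 h2
  by_cases h3m : (3 : R) ∈ IsLocalRing.maximalIdeal R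
  · obtain ⟨g, hg⟩ : ∃ g : R, 2 * g = 1 := by
      have h2 : IsUnit (2 : R) := by
        by_contra h2
        have h2' : (2 : R) ∈ IsLocalRing.maximalIdeal R :=
          (IsLocalRing.mem_maximalIdeal _).2 h2
        have h1 : (1 : R) ∈ IsLocalRing.maximalIdeal R := by
          have h4 := Ideal.sub_mem _ h3m h2'
          norm_num at h4
        exact (Ideal.ne_top_iff_one _).1 (IsLocalRing.maximalIdeal.isMaximal R).ne_top h1
      obtain ⟨v, hv⟩ := h2
      exact ⟨(↑v⁻¹ : R), by rw [← hv, Units.mul_inv]⟩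
    set C₂ : VariableChange R := ⟨1, 0, -g * W₀.a₁, -g * W₀.a₃⟩ with hC₂
    have h1 : (C₂.map (algebraMap R K) * C) • E3 a b c = (C₂ • W₀).map (algebraMap R K) := by
      rw [mul_smul, hC, ← map_variableChange]
    have h2 := good_three_core R a b c habc _ (C₂ • W₀) h1
      (by
        rw [variableChange_Δ, hC₂, inv_one, Units.val_one, one_pow, one_mul]
        exact hΔ)
      (by
        intro h6
        rw [variableChange_c₄, hC₂, inv_one, Units.val_one, one_pow, one_mul]
        exact hc h6)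
      (by
        intro _
        constructor
        · rw [variableChange_a₁, hC₂]
          linear_combination -(↑(1 : Rˣ)⁻¹ : R) * W₀.a₁ * hg
        · rw [variableChange_a₃, hC₂]
          linear_combination -(↑(1 : Rˣ)⁻¹ : R) ^ 3 * W₀.a₃ * hg)
    rw [← map_variableChange, Pool.Agent.Lib.MP_1a91b9_nt.card_point_variableChange, hn] at h2
    exact h2
  · have h2 := good_three_core R a b c habc C W₀ hC hΔ hc (fun h => absurd h h3m)
    rw [hn] at h2
    exact h2

end

end Pool.Agent.Lib.MP_1a91b9_nuI
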