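import Pool.Agent.Lib.MP_1a91b9_nuI.Defs
import Pool.Agent.Lib.MP_1a91b9_nt.GoodModel

/-!
# Local polynomials and good models
-/

set_option autoImplicit false

namespace Pool.Agent.Lib.MP_1a91b9_nuI

open WeierstrassCurve IsDedekindDomain

section
variable (R : Type*) [CommRing R] [IsDomain R] [IsDiscreteValuationRing R]
  {K : Type*} [Field K] [Algebra R K] [IsFractionRing R K]

/-- `W` has an integral model with unit discriminant, whose reduction has `n` points. -/
def Good (W : WeierstrassCurve K) (n : ℕ) : Prop :=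
  ∃ (C : VariableChange K) (W₀ : WeierstrassCurve R), C • W = W₀.map (algebraMap R K) ∧
    IsUnit W₀.Δ ∧ Nat.card (W₀.map (IsLocalRing.residue R)).toAffine.Point = n

theorem good_of_hasGood (W : WeierstrassCurve K) (h : (W.minimal R).HasGoodReduction R) :
    ∃ n, Good R W n := by
  obtain ⟨C, hC⟩ : ∃ C : WeierstrassCurve.VariableChange K, W.minimal R = C • W := ⟨_, rfl⟩
  refine ⟨_, C, WeierstrassCurve.integralModel R (W.minimal R), ?_, ?_, rfl⟩
  · rw [← hC]
    exact (WeierstrassCurve.baseChange_integralModel_eq R (W.minimal R)).symm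
  · by_contra hu
    have h1 := h.goodReduction
    rw [← WeierstrassCurve.integralModel_Δ_eq R (W.minimal R)] at h1
    have h2 : (IsDiscreteValuationRing.maximalIdeal R).valuation K
        (algebraMap R K (WeierstrassCurve.integralModel R (W.minimal R)).Δ) < 1 := by
      rw [HeightOneSpectrum.valuation_lt_one_iff_mem]
      exact (IsLocalRing.mem_maximalIdeal _).mpr hu
    exact absurd h1 h2.ne

/-- no good model and `j` integral: the local polynomial is one -/
theorem locpoly_bad (W : WeierstrassCurve K) (hj : ∃ j : R, W.c₄ ^ 3 = algebraMap R K j * W.Δ)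
    (h : ∀ n, ¬ Good R W n) : W.localPolynomial R = 1 := by
  classical
  obtain ⟨C, hC⟩ : ∃ C : WeierstrassCurve.VariableChange K, W.minimal R = C • W := ⟨_, rfl⟩
  have hgood : ¬ (W.minimal R).HasGoodReduction R := by
    intro hg
    obtain ⟨n, hn⟩ := good_of_hasGood R W hg
    exact h n hn
  have hmult : ¬ (W.minimal R).HasMultiplicativeReduction R := by
    intro hm
    obtain ⟨j, hj⟩ := hj
    have h1 := hm.multiplicativeReduction
    have h2 := hm.badReduction
    have h3 : (W.minimal R).c₄ ^ 3 = algebraMap R K j * (W.minimal R).Δ := by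
      rw [hC, WeierstrassCurve.variableChange_c₄, WeierstrassCurve.variableChange_Δ, mul_pow, hj]
      ring
    have h4 := congrArg ((IsDiscreteValuationRing.maximalIdeal R).valuation K) h3
    rw [map_pow, map_mul, h1, one_pow] at h4
    have h5 : (IsDiscreteValuationRing.maximalIdeal R).valuation K (algebraMap R K j) ≤ 1 :=
      HeightOneSpectrum.valuation_le_one _ _
    have h6 : (IsDiscreteValuationRing.maximalIdeal R).valuation K (algebraMap R K j) *
        (IsDiscreteValuationRing.maximalIdeal R).valuation K (W.minimal R).Δ ≤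
        1 * (IsDiscreteValuationRing.maximalIdeal R).valuation K (W.minimal R).Δ :=
      mul_le_mul_left h5 _
    rw [one_mul, ← h4] at h6
    exact absurd h2 (not_lt.mpr h6)
  have hsplit : ¬ (W.minimal R).HasSplitMultiplicativeReduction R := fun hm =>
    hmult hm.toHasMultiplicativeReduction
  unfold WeierstrassCurve.localPolynomial
  simp only [hgood, hmult, hsplit, if_false]

/-- good models correspond to each other, with the same number of points: the local polynomials are
equal -/
theorem locpoly_eq (W W' : WeierstrassCurve K)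
    (hj : ∃ j : R, W.c₄ ^ 3 = algebraMap R K j * W.Δ)
    (hj' : ∃ j : R, W'.c₄ ^ 3 = algebraMap R K j * W'.Δ)
    (h : ∀ n, Good R W n → Good R W' n) (h' : ∀ n, Good R W' n → Good R W n) :
    W.localPolynomial R = W'.localPolynomial R := by
  by_cases hg : ∃ n, Good R W n
  · obtain ⟨n, hn⟩ := hg
    obtain ⟨C', W₀', e1', e2', e3'⟩ := h n hn
    obtain ⟨C, W₀, e1, e2, e3⟩ := hn
    rw [Pool.Agent.Lib.MP_1a91b9_nt.localPolynomial_of_model R W C W₀ e1 e2,
      Pool.Agent.Lib.MP_1a91b9_nt.localPolynomial_of_model R W' C' W₀' e1' e2', e3, e3']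
  · rw [locpoly_bad R W hj (fun n hn => hg ⟨n, hn⟩),
      locpoly_bad R W' hj' (fun n hn => hg ⟨n, h' n hn⟩)]

end

end Pool.Agent.Lib.MP_1a91b9_nuI
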